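import Mathlib
import Pool.Agent.R789.C1Curve

/-!
# Injective paths inside a `C¹` curve are differentiable almost everywhere
-/

set_option autoImplicit false

open Set Filter MeasureTheory Topology Metric
open scoped Manifold ContDiff

namespace Pool.Agent.Helper61A

open R789.C1

variable {S : Type*} [TopologicalSpace S] [T2Space S] [ChartedSpace ℂ S]

/-- An injective continuous path inside a `C¹` curve is a monotone reparametrisation of the curve;
so it is differentiable almost everywhere. -/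
theorem ae_path {Γ : Set S} (hΓ : IsC1Curve Γ) {a b : ℝ} {h : ℝ → S}
    (hc : ContinuousOn h (Ioo a b)) (hi : InjOn h (Ioo a b)) (hm : ∀ t ∈ Ioo a b, h t ∈ Γ) :
    ∀ᵐ t : ℝ, t ∈ Ioo a b → MDifferentiableAt 𝓘(ℝ, ℝ) 𝓘(ℝ, ℂ) h t := by
  obtain ⟨γ, hγ, -, hp, hinj, rfl⟩ := hΓ
  have hP : Function.Periodic γ 1 := hp
  let c : AddCircle (1 : ℝ) → S := hP.lift
  have hcc : ∀ s : ℝ, c (s : AddCircle (1 : ℝ)) = γ s := fun s => hP.lift_coe s
  have hcont : Continuous c := by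
    refine (QuotientAddGroup.isQuotientMap_mk (N := AddSubgroup.zmultiples (1 : ℝ))).continuous_iff.2 ?_
    exact hγ.continuous
  have hcinj : Function.Injective c := by
    intro x y hxy
    obtain ⟨s, hs⟩ : ∃ s : ℝ, s ∈ Ico (0 : ℝ) 1 ∧ (s : AddCircle (1 : ℝ)) = x := by
      have h1 := (AddCircle.equivIco (1 : ℝ) 0 x).2
      refine ⟨AddCircle.equivIco (1 : ℝ) 0 x, by simpa using h1, ?_⟩
      exact (AddCircle.equivIco (1 : ℝ) 0).symm_apply_apply x
    obtain ⟨t, ht⟩ : ∃ t : ℝ, t ∈ Ico (0 : ℝ) 1 ∧ (t : AddCircle (1 : ℝ)) = y := by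
      have h1 := (AddCircle.equivIco (1 : ℝ) 0 y).2
      refine ⟨AddCircle.equivIco (1 : ℝ) 0 y, by simpa using h1, ?_⟩
      exact (AddCircle.equivIco (1 : ℝ) 0).symm_apply_apply y
    rw [← hs.2, ← ht.2, hcc, hcc] at hxy
    rw [← hs.2, ← ht.2, hinj hs.1 ht.1 hxy]
  have hemb : IsClosedEmbedding c := hcont.isClosedEmbedding hcinj
  let g : ℝ → AddCircle (1 : ℝ) := fun t => Function.invFun c (h t)
  have hg : ∀ t ∈ Ioo a b, c (g t) = h t := by
    intro t ht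
    obtain ⟨s, hs⟩ := hm t ht
    exact Function.invFun_eq ⟨(s : AddCircle (1 : ℝ)), (hcc s).trans hs⟩
  have hgc : ContinuousOn g (Ioo a b) := by
    rw [hemb.isInducing.continuousOn_iff]
    exact hc.congr fun t ht => hg t ht
  have hgi : InjOn g (Ioo a b) := by
    intro s hs t ht hst
    apply hi hs ht
    rw [← hg s hs, ← hg t ht, hst]
  have hnull : volume {t : ℝ | t ∈ Ioo a b ∧ ¬ MDifferentiableAt 𝓘(ℝ, ℝ) 𝓘(ℝ, ℂ) h t} = 0 := by
    refine measure_null_of_locally_null _ ?_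
    rintro t₀ ⟨ht₀, -⟩
    obtain ⟨s₀, hs₀⟩ : ∃ s₀ : ℝ, (s₀ : AddCircle (1 : ℝ)) = g t₀ :=
      QuotientAddGroup.mk_surjective _
    let e := AddCircle.openPartialHomeomorphCoe (1 : ℝ) (s₀ - 1 / 2)
    have hsrc : s₀ ∈ e.source := by
      show s₀ ∈ Ioo (s₀ - 1 / 2) (s₀ - 1 / 2 + 1)
      constructor <;> linarith
    have htgt : g t₀ ∈ e.target := by
      rw [← hs₀]
      exact e.map_source hsrc
    have hV : Ioo a b ∩ g ⁻¹' e.target ∈ 𝓝 t₀ :=
      (hgc.isOpen_inter_preimage isOpen_Ioo e.open_target).mem_nhds ⟨ht₀, htgt⟩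
    obtain ⟨ε, hε, hball⟩ := Metric.mem_nhds_iff.1 hV
    rw [Real.ball_eq_Ioo] at hball
    let θ : ℝ → ℝ := fun t => e.symm (g t)
    have hθc : ContinuousOn θ (Ioo (t₀ - ε) (t₀ + ε)) :=
      e.symm.continuousOn.comp (hgc.mono fun t ht => (hball ht).1) fun t ht => (hball ht).2
    have hθi : InjOn θ (Ioo (t₀ - ε) (t₀ + ε)) := by
      intro s hs t ht hst
      exact hgi (hball hs).1 (hball ht).1 (e.symm.injOn (hball hs).2 (hball ht).2 hst)
    have hθd : ∀ᵐ t : ℝ, t ∈ Ioo (t₀ - ε) (t₀ + ε) → DifferentiableAt ℝ θ t := by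
      have h1 : ∀ᵐ t : ℝ, t ∈ Ioo (t₀ - ε) (t₀ + ε) →
          DifferentiableWithinAt ℝ θ (Ioo (t₀ - ε) (t₀ + ε)) t := by
        rcases ContinuousOn.strictMonoOn_of_injOn_Ioo (by linarith) hθc hθi with h | h
        · exact h.monotoneOn.ae_differentiableWithinAt_of_mem
        · have h2 : MonotoneOn (fun t => -θ t) (Ioo (t₀ - ε) (t₀ + ε)) := h.antitoneOn.neg
          filter_upwards [h2.ae_differentiableWithinAt_of_mem] with t ht htI
          have h3 := (ht htI).neg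
          simpa using h3
      filter_upwards [h1] with t ht htI
      exact (ht htI).differentiableAt (isOpen_Ioo.mem_nhds htI)
    refine ⟨{t : ℝ | ¬ (t ∈ Ioo (t₀ - ε) (t₀ + ε) → DifferentiableAt ℝ θ t)} ∪
      (Ioo (t₀ - ε) (t₀ + ε) ∩ {t : ℝ | t ∈ Ioo a b ∧ ¬ MDifferentiableAt 𝓘(ℝ, ℝ) 𝓘(ℝ, ℂ) h t}),
      ?_, ?_⟩
    · refine mem_nhdsWithin.2 ⟨Ioo (t₀ - ε) (t₀ + ε), isOpen_Ioo, ⟨by linarith, by linarith⟩, ?_⟩
      rintro t ⟨h1, h2⟩
      exact Or.inr ⟨h1, h2⟩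
    · refine measure_mono_null ?_ (show volume {t : ℝ | ¬ (t ∈ Ioo (t₀ - ε) (t₀ + ε) →
        DifferentiableAt ℝ θ t)} = 0 from hθd)
      rintro t (h1 | ⟨h1, -, h2⟩)
      · exact h1
      · intro h3
        apply h2
        have h4 := h3 h1
        have h5 : MDifferentiableAt 𝓘(ℝ, ℝ) 𝓘(ℝ, ℂ) (γ ∘ θ) t :=
          ((hγ.mdifferentiable one_ne_zero) (θ t)).comp t h4.mdifferentiableAt
        refine h5.congr_of_eventuallyEq ?_
        filter_upwards [isOpen_Ioo.mem_nhds h1] with t' ht'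
        show h t' = γ (e.symm (g t'))
        rw [← hcc, ← hg t' (hball ht').1]
        congr 1
        exact (e.right_inv (hball ht').2).symm
  have h2 : {t : ℝ | ¬ (t ∈ Ioo a b → MDifferentiableAt 𝓘(ℝ, ℝ) 𝓘(ℝ, ℂ) h t)} =
      {t : ℝ | t ∈ Ioo a b ∧ ¬ MDifferentiableAt 𝓘(ℝ, ℝ) 𝓘(ℝ, ℂ) h t} := by
    ext t
    simp only [mem_ofPred_eq, Classical.not_imp]
  rw [ae_iff, h2]
  exact hnull

end Pool.Agent.Helper61A
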