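import Pool.Agent.Helper66.FD.Stm

/-!
Lindblad semigroups: `X ↦ A X + X A^* + ∑ j, K j X (K j)^*` with
`A + A^* + ∑ j, (K j)^* K j = 0` generates a semigroup of positive trace preserving maps.
-/

set_option autoImplicit false
set_option linter.unusedSectionVars false

open scoped BigOperators Matrix ComplexConjugate ComplexOrder Topology
open Finset Filter Pool.Agent.TH235.PP Pool.Agent.Results.MP_953b23_mp.OverlapBoosting
  Pool.Agent.Helper99.PE Pool.Agent.Helper66.FD

namespace Pool.Agent.Helper61A.GK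

section Alg
variable {𝔸 : Type*} [NormedRing 𝔸] [NormOneClass 𝔸] [NormedAlgebra ℂ 𝔸] [CompleteSpace 𝔸]

lemma pow_sub_pow (a b : 𝔸) (M : ℝ) (hM : 1 ≤ M) (ha : ‖a‖ ≤ M) (hb : ‖b‖ ≤ M) (n : ℕ) :
    ‖a ^ n - b ^ n‖ ≤ n * M ^ n * ‖a - b‖ := by
  induction n with
  | zero => simp
  | succ n ih =>
    have h : a ^ (n + 1) - b ^ (n + 1) = a ^ n * (a - b) + (a ^ n - b ^ n) * b := by
      rw [pow_succ, pow_succ]; noncomm_ring
    rw [h]
    have hM0 : 0 ≤ M := by linarith
    have h1 : ‖a ^ n * (a - b)‖ ≤ M ^ n * ‖a - b‖ :=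
      (norm_mul_le _ _).trans (mul_le_mul_of_nonneg_right
        ((norm_pow_le a n).trans (pow_le_pow_left₀ (norm_nonneg _) ha n)) (norm_nonneg _))
    have h2 : ‖(a ^ n - b ^ n) * b‖ ≤ (n * M ^ n * ‖a - b‖) * M :=
      (norm_mul_le _ _).trans (mul_le_mul ih hb (norm_nonneg _) (by positivity))
    have h3 : M ^ n * ‖a - b‖ ≤ M ^ (n + 1) * ‖a - b‖ :=
      mul_le_mul_of_nonneg_right (pow_le_pow_right₀ hM (Nat.le_succ n)) (norm_nonneg _)
    calc ‖a ^ n * (a - b) + (a ^ n - b ^ n) * b‖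
        ≤ M ^ n * ‖a - b‖ + (n * M ^ n * ‖a - b‖) * M := (norm_add_le _ _).trans (add_le_add h1 h2)
      _ ≤ M ^ (n + 1) * ‖a - b‖ + (n * M ^ n * ‖a - b‖) * M := by linarith
      _ = ((n + 1 : ℕ) : ℝ) * M ^ (n + 1) * ‖a - b‖ := by push_cast; ring

lemma norm_exp_le' (x : 𝔸) : ‖NormedSpace.exp x‖ ≤ Real.exp ‖x‖ := by
  have he : Real.exp ‖x‖ = ∑' n : ℕ, ‖x‖ ^ n / (n.factorial : ℝ) := by
    rw [Real.exp_eq_exp_ℝ, NormedSpace.exp_eq_tsum_div]
  rw [he, congrFun (NormedSpace.exp_eq_tsum ℂ) x]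
  have hs : Summable fun n : ℕ => ‖x‖ ^ n / (n.factorial : ℝ) :=
    Real.summable_pow_div_factorial ‖x‖
  have hb : ∀ n : ℕ, ‖((n.factorial : ℂ)⁻¹) • x ^ n‖ ≤ ‖x‖ ^ n / (n.factorial : ℝ) := fun n => by
    rw [norm_smul, norm_inv, Complex.norm_natCast, div_eq_inv_mul]
    exact mul_le_mul_of_nonneg_left (norm_pow_le x n) (by positivity)
  exact tsum_of_norm_bounded hs.hasSum hb

/-- The Euler scheme, with an error of second order. -/
lemma euler (G E : 𝔸) (s : ℝ) (hs : 0 ≤ s) :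
    Tendsto (fun n : ℕ => (1 + ((s / n : ℝ) : ℂ) • G + (((s / n : ℝ) : ℂ) ^ 2) • E) ^ n) atTop
      (𝓝 (NormedSpace.exp ((s : ℂ) • G))) := by
  set c : ℝ := ‖G‖ + s * ‖E‖ with hc
  have hc0 : 0 ≤ c := by positivity
  -- the local error
  have hD : HasDerivAt (fun u : ℂ => NormedSpace.exp (u • G)) G 0 := by
    have := hasDerivAt_exp_smul_const (𝕂 := ℂ) G 0
    simpa using this
  have hh : Tendsto (fun n : ℕ => ((s / n : ℝ) : ℂ)) atTop (𝓝 0) := by
    have : Tendsto (fun n : ℕ => s / (n : ℝ)) atTop (𝓝 0) := tendsto_const_div_atTop_nhds_zero_nat s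
    exact_mod_cast (Complex.continuous_ofReal.tendsto 0).comp this
  have hO := (hasDerivAt_iff_isLittleO_nhds_zero.1 hD).comp_tendsto hh
  have hloc : Tendsto (fun n : ℕ => (n : ℝ) *
      ‖NormedSpace.exp (((s / n : ℝ) : ℂ) • G) - 1 - ((s / n : ℝ) : ℂ) • G‖) atTop (𝓝 0) := by
    rw [Metric.tendsto_atTop]
    intro ε hε
    have h1 := hO.bound (c := ε / (2 * (s + 1))) (by positivity)
    obtain ⟨N, hN⟩ := eventually_atTop.1 h1
    refine ⟨max N 1, fun n hn => ?_⟩
    have hn1 : (1 : ℝ) ≤ n := by exact_mod_cast (le_max_right N 1).trans hn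
    have h2 := hN n ((le_max_left N 1).trans hn)
    simp only [Function.comp, zero_add, zero_smul, NormedSpace.exp_zero] at h2
    rw [Complex.norm_real, Real.norm_of_nonneg (by positivity)] at h2
    rw [Real.dist_eq, sub_zero, abs_of_nonneg (by positivity)]
    calc (n : ℝ) * ‖NormedSpace.exp (((s / n : ℝ) : ℂ) • G) - 1 - ((s / n : ℝ) : ℂ) • G‖
        ≤ n * (ε / (2 * (s + 1)) * (s / n)) := mul_le_mul_of_nonneg_left h2 (by positivity)
      _ = ε / 2 * (s / (s + 1)) := by field_simp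
      _ ≤ ε / 2 * 1 := by
          gcongr
          rw [div_le_one (by positivity)]; linarith
      _ < ε := by linarith
  -- the comparison
  have hlim : Tendsto (fun n : ℕ => Real.exp (s * c) * ((n : ℝ) *
      ‖NormedSpace.exp (((s / n : ℝ) : ℂ) • G) - 1 - ((s / n : ℝ) : ℂ) • G‖ +
      s ^ 2 * ‖E‖ / n)) atTop (𝓝 0) := by
    have h2 : Tendsto (fun n : ℕ => s ^ 2 * ‖E‖ / (n : ℝ)) atTop (𝓝 0) :=
      tendsto_const_div_atTop_nhds_zero_nat _
    simpa using (hloc.add h2).const_mul (Real.exp (s * c))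
  rw [tendsto_iff_norm_sub_tendsto_zero]
  refine squeeze_zero' (Eventually.of_forall fun n => norm_nonneg _) ?_ hlim
  filter_upwards [eventually_ge_atTop 1] with n hn
  have hn1 : (1 : ℝ) ≤ n := by exact_mod_cast hn
  have hn0 : (0 : ℝ) < n := by linarith
  set h : ℝ := s / n with hh'
  have hh0 : 0 ≤ h := by positivity
  have hhs : h ≤ s := div_le_self hs hn1
  set b : 𝔸 := 1 + ((h : ℝ) : ℂ) • G + (((h : ℝ) : ℂ) ^ 2) • E with hb
  set a : 𝔸 := NormedSpace.exp ((h : ℂ) • G) with ha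
  have han : a ^ n = NormedSpace.exp ((s : ℂ) • G) := by
    let _ : NormedAlgebra ℚ 𝔸 := NormedAlgebra.restrictScalars ℚ ℂ 𝔸
    rw [ha, ← NormedSpace.exp_nsmul]
    congr 1
    rw [← Nat.cast_smul_eq_nsmul ℂ, smul_smul]
    congr 1
    rw [hh']; push_cast; field_simp
  have hM1 : 1 ≤ Real.exp (h * c) := Real.one_le_exp (by positivity)
  have haM : ‖a‖ ≤ Real.exp (h * c) := by
    refine (norm_exp_le' _).trans (Real.exp_le_exp.2 ?_)
    rw [norm_smul, Complex.norm_real, Real.norm_of_nonneg hh0, hc]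
    have : 0 ≤ s * ‖E‖ := by positivity
    nlinarith
  have hbM : ‖b‖ ≤ Real.exp (h * c) := by
    calc ‖b‖ ≤ 1 + h * ‖G‖ + h ^ 2 * ‖E‖ := by
          rw [hb]
          refine (norm_add_le _ _).trans (add_le_add ((norm_add_le _ _).trans ?_) ?_)
          · rw [norm_one, norm_smul, Complex.norm_real, Real.norm_of_nonneg hh0]
          · rw [norm_smul, norm_pow, Complex.norm_real, Real.norm_of_nonneg hh0]
      _ ≤ h * c + 1 := by
          rw [hc]
          have : h ^ 2 * ‖E‖ ≤ h * (s * ‖E‖) := by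
            have := mul_le_mul_of_nonneg_right hhs (mul_nonneg hh0 (norm_nonneg E))
            nlinarith
          nlinarith
      _ ≤ Real.exp (h * c) := Real.add_one_le_exp _
  have hMn : Real.exp (h * c) ^ n = Real.exp (s * c) := by
    rw [← Real.exp_nat_mul]
    congr 1
    rw [hh']; field_simp
  have hab : ‖a - b‖ ≤ ‖a - 1 - (h : ℂ) • G‖ + h ^ 2 * ‖E‖ := by
    have : a - b = (a - 1 - (h : ℂ) • G) - ((h : ℂ) ^ 2) • E := by rw [hb]; abel
    rw [this]
    refine (norm_sub_le _ _).trans (add_le_add le_rfl ?_)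
    rw [norm_smul, norm_pow, Complex.norm_real, Real.norm_of_nonneg hh0]
  rw [← han, norm_sub_rev]
  refine (pow_sub_pow a b _ hM1 haM hbM n).trans ?_
  rw [hMn]
  calc (n : ℝ) * Real.exp (s * c) * ‖a - b‖
      ≤ n * Real.exp (s * c) * (‖a - 1 - (h : ℂ) • G‖ + h ^ 2 * ‖E‖) :=
        mul_le_mul_of_nonneg_left hab (by positivity)
    _ = Real.exp (s * c) * (n * ‖a - 1 - (h : ℂ) • G‖ + s ^ 2 * ‖E‖ / n) := by
        rw [hh']; field_simp

end Alg

section Mat

attribute [local instance] Matrix.linftyOpNormedRing Matrix.linftyOpNormedAlgebra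
  Matrix.linfty_opNormOneClass

variable {m : Type*} [Fintype m] [DecidableEq m]

/-- The Euler scheme for matrices. -/
lemma euler_mat (G E : Matrix m m ℂ) (s : ℝ) (hs : 0 ≤ s) (x : m → ℂ) :
    Tendsto (fun n : ℕ => ((1 + ((s / n : ℝ) : ℂ) • G + (((s / n : ℝ) : ℂ) ^ 2) • E) ^ n) *ᵥ x)
      atTop (𝓝 (NormedSpace.exp ((s : ℂ) • G) *ᵥ x)) := by
  rcases isEmpty_or_nonempty m with hm | hm
  · have : ∀ n : ℕ, ((1 + ((s / n : ℝ) : ℂ) • G + (((s / n : ℝ) : ℂ) ^ 2) • E) ^ n) *ᵥ x =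
        NormedSpace.exp ((s : ℂ) • G) *ᵥ x := fun n => Subsingleton.elim _ _
    simp only [this]
    exact tendsto_const_nhds
  · have h := euler G E s hs
    have hcont : Continuous fun M : Matrix m m ℂ => M *ᵥ x := by fun_prop
    exact (hcont.tendsto _).comp h

end Mat

/-- The vector of an operator as a linear equivalence. -/
noncomputable def vecE {d L : ℕ} : TorOp d L ≃ₗ[ℂ] ((Site L → Fin (d * d)) → ℂ) where
  toFun := vec
  map_add' X Y := rfl
  map_smul' c X := rfl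
  invFun y := fun a b => y fun v => finProdFinEquiv (a v, b v)
  left_inv X := by
    funext a b
    simp [vec]
  right_inv y := by
    funext s
    exact congrArg y (funext fun v => finProdFinEquiv.apply_symm_apply (s v))

lemma vecE_apply {d L : ℕ} (X : TorOp d L) : vecE X = vec X := rfl

lemma vecE_symm_apply {d L : ℕ} (y : (Site L → Fin (d * d)) → ℂ) (a b : Site L → Fin d) :
    (vecE.symm y : TorOp d L) a b = y fun v => finProdFinEquiv (a v, b v) := rfl

lemma posSemidef_of_tendsto {n : Type*} [Fintype n] {X : ℕ → Matrix n n ℂ} {Y : Matrix n n ℂ}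
    (hX : ∀ k, (X k).PosSemidef) (h : Tendsto X atTop (𝓝 Y)) : Y.PosSemidef := by
  have hh : Y.IsHermitian := by
    have h1 : Tendsto (fun k => (X k)ᴴ) atTop (𝓝 Yᴴ) :=
      ((continuous_id.matrix_conjTranspose).tendsto Y).comp h
    have h2 : (fun k => (X k)ᴴ) = X := funext fun k => (hX k).1
    rw [h2] at h1
    exact tendsto_nhds_unique h1 h
  refine Matrix.PosSemidef.of_dotProduct_mulVec_nonneg hh fun x => ?_
  have h3 : Tendsto (fun k => star x ⬝ᵥ X k *ᵥ x) atTop (𝓝 (star x ⬝ᵥ Y *ᵥ x)) := by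
    have hc : Continuous fun M : Matrix n n ℂ => star x ⬝ᵥ M *ᵥ x := by fun_prop
    exact (hc.tendsto _).comp h
  exact ge_of_tendsto' h3 fun k => (hX k).dotProduct_mulVec_nonneg x

theorem gksl : GKSL := by
  intro d L _ J _ A K G hA hG s hs X hX
  -- the matrix of `X ↦ A X A^*`
  set EL : ((Site L → Fin (d * d)) → ℂ) →ₗ[ℂ] ((Site L → Fin (d * d)) → ℂ) :=
    vecE.toLinearMap ∘ₗ ((LinearMap.mulRight ℂ Aᴴ) ∘ₗ (LinearMap.mulLeft ℂ A)) ∘ₗ
      vecE.symm.toLinearMap with hEL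
  set E : TorOp (d * d) L := LinearMap.toMatrix' EL with hE
  have hEv : ∀ Z : TorOp d L, E *ᵥ vec Z = vec (A * Z * Aᴴ) := by
    intro Z
    rw [hE, ← Matrix.toLin'_apply, Matrix.toLin'_toMatrix', hEL]
    simp only [LinearMap.comp_apply, LinearEquiv.coe_coe, LinearMap.mulLeft_apply,
      LinearMap.mulRight_apply]
    rw [← vecE_apply Z, LinearEquiv.symm_apply_apply, vecE_apply]
  -- the Euler step
  have hstep : ∀ h : ℝ, 0 ≤ h → ∀ Z : TorOp d L, Z.PosSemidef → ∃ W : TorOp d L, W.PosSemidef ∧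
      (1 + (h : ℂ) • G + ((h : ℂ) ^ 2) • E) *ᵥ vec Z = vec W := by
    intro h hh Z hZ
    refine ⟨(1 + (h : ℂ) • A) * Z * (1 + (h : ℂ) • A)ᴴ + (h : ℂ) • ∑ j, K j * Z * (K j)ᴴ, ?_, ?_⟩
    · refine (hZ.mul_mul_conjTranspose_same _).add ?_
      refine Matrix.PosSemidef.smul ?_ (by exact_mod_cast hh)
      exact Matrix.posSemidef_sum _ fun j _ => hZ.mul_mul_conjTranspose_same _
    · rw [Matrix.add_mulVec, Matrix.add_mulVec, Matrix.one_mulVec, Matrix.smul_mulVec,
        Matrix.smul_mulVec, hG, hEv]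
      simp only [← vecE_apply]
      rw [← map_smul, ← map_smul, ← map_add, ← map_add]
      refine congrArg (fun M : TorOp d L => vecE M) ?_
      rw [Matrix.conjTranspose_add, Matrix.conjTranspose_one, Matrix.conjTranspose_smul]
      have : star (h : ℂ) = (h : ℂ) := Complex.conj_ofReal h
      rw [this]
      simp only [add_mul, mul_add, one_mul, mul_one, smul_mul_assoc, mul_smul_comm, smul_add,
        smul_smul, mul_assoc]
      rw [sq]
      abel
  have hiter : ∀ h : ℝ, 0 ≤ h → ∀ n : ℕ, ∃ W : TorOp d L, W.PosSemidef ∧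
      ((1 + (h : ℂ) • G + ((h : ℂ) ^ 2) • E) ^ n) *ᵥ vec X = vec W := by
    intro h hh n
    induction n with
    | zero => exact ⟨X, hX, by rw [pow_zero, Matrix.one_mulVec]⟩
    | succ n ih =>
      obtain ⟨W, hW, hW2⟩ := ih
      obtain ⟨V, hV, hV2⟩ := hstep h hh W hW
      refine ⟨V, hV, ?_⟩
      rw [pow_succ', ← Matrix.mulVec_mulVec, hW2, hV2]
  set Y : TorOp d L := vecE.symm (NormedSpace.exp ((s : ℂ) • G) *ᵥ vec X) with hY
  have hYv : vec Y = NormedSpace.exp ((s : ℂ) • G) *ᵥ vec X := by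
    rw [← vecE_apply, hY, LinearEquiv.apply_symm_apply]
  refine ⟨Y, ?_, ?_, hYv⟩
  · choose W hW hW2 using fun n : ℕ => hiter (s / n) (by positivity) n
    have hlim := euler_mat G E s hs (vec X)
    have hWl : Tendsto W atTop (𝓝 Y) := by
      have hc : Continuous fun y : (Site L → Fin (d * d)) → ℂ => (vecE.symm y : TorOp d L) := by
        refine continuous_matrix fun a b => ?_
        exact continuous_apply (fun v => finProdFinEquiv (a v, b v))
      have h1 := (hc.tendsto _).comp hlim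
      refine h1.congr fun n => ?_
      simp only [Function.comp]
      rw [hW2 n, ← vecE_apply, LinearEquiv.symm_apply_apply]
    exact posSemidef_of_tendsto hW hWl
  · -- the trace
    set τ : ((Site L → Fin (d * d)) → ℂ) →ₗ[ℂ] ℂ :=
      (Matrix.traceLinearMap (Site L → Fin d) ℂ ℂ) ∘ₗ vecE.symm.toLinearMap with hτ
    have hτv : ∀ Z : TorOp d L, τ (vec Z) = Z.trace := by
      intro Z
      rw [hτ]
      simp only [LinearMap.comp_apply, LinearEquiv.coe_coe, Matrix.traceLinearMap_apply]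
      rw [← vecE_apply Z, LinearEquiv.symm_apply_apply]
    have hτG : ∀ y, τ (G *ᵥ y) = 0 := by
      intro y
      obtain ⟨Z, rfl⟩ : ∃ Z : TorOp d L, vec Z = y :=
        ⟨vecE.symm y, by rw [← vecE_apply, LinearEquiv.apply_symm_apply]⟩
      rw [hG, hτv, Matrix.trace_add, Matrix.trace_add, Matrix.trace_sum]
      have h1 : (A * Z).trace + (Z * Aᴴ).trace + ∑ j, (K j * Z * (K j)ᴴ).trace =
          ((A + Aᴴ + ∑ j, (K j)ᴴ * K j) * Z).trace := by
        rw [add_mul, add_mul, Matrix.trace_add, Matrix.trace_add, Matrix.trace_mul_comm Z,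
          Finset.sum_mul, Matrix.trace_sum]
        refine congrArg (fun z : ℂ => (A * Z).trace + (Aᴴ * Z).trace + z) ?_
        refine Finset.sum_congr rfl fun j _ => ?_
        rw [Matrix.trace_mul_comm, ← Matrix.mul_assoc]
      rw [h1, hA, zero_mul, Matrix.trace_zero]
    have hτn : ∀ (h : ℝ) (n : ℕ) (y : (Site L → Fin (d * d)) → ℂ),
        τ (((1 + (h : ℂ) • G + ((h : ℂ) ^ 2) • (0 : TorOp (d * d) L)) ^ n) *ᵥ y) = τ y := by
      intro h n y
      induction n with
      | zero => rw [pow_zero, Matrix.one_mulVec]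
      | succ n ih =>
        rw [pow_succ', ← Matrix.mulVec_mulVec, smul_zero, add_zero, Matrix.add_mulVec,
          Matrix.one_mulVec, Matrix.smul_mulVec, map_add, map_smul, hτG, smul_zero, add_zero]
        rw [smul_zero, add_zero] at ih
        exact ih
    have hlim := euler_mat G 0 s hs (vec X)
    have hτc : Continuous τ := τ.continuous_of_finiteDimensional
    have h1 := (hτc.tendsto _).comp hlim
    have h2 : Tendsto (fun _ : ℕ => τ (vec X)) atTop (𝓝 (τ (NormedSpace.exp ((s : ℂ) • G) *ᵥ vec X))) :=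
      h1.congr fun n => hτn _ n _
    have h3 := tendsto_nhds_unique h2 tendsto_const_nhds
    rw [← hYv, hτv, hτv] at h3
    exact h3

end Pool.Agent.Helper61A.GK
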