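import Pool.Agent.Helper61A.Step

/-!
# Linear density points of closed plane sets, and a pointwise Lipschitz bound for open maps

Almost every point `p` of a closed set `E` of the plane is a density point of the intersections of
`E` with the vertical and with the horizontal line through `p`. Hence, if an open map is pointwise
Lipschitz along almost all points of horizontal and of vertical lines, then it is pointwise
Lipschitz at almost all points (Gehring and Lehto).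
-/

set_option autoImplicit false

open Set Filter MeasureTheory Topology Metric
open scoped ENNReal NNReal

namespace Pool.Agent.Helper61A

/-- `x` is accumulated by the set `S` of reals from all sides at all small scales -/
def Dense1 (S : Set ℝ) (x : ℝ) : Prop :=
  ∃ r > 0, ∀ ρ, 0 < ρ → ρ < r → ∀ a, -(2 * ρ) ≤ a → a ≤ ρ → ∃ t ∈ Ioo a (a + ρ), x + t ∈ S

/-- measure of the part of `S` near `x` -/
noncomputable def part (S : Set ℝ) (x r : ℝ) : ℝ≥0∞ := volume {t : ℝ | t ∈ Icc (-r) r ∧ x + t ∈ S}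

theorem part_eq (S : Set ℝ) (x r : ℝ) : part S x r = volume (S ∩ closedBall x r) := by
  have h : {t : ℝ | t ∈ Icc (-r) r ∧ x + t ∈ S} = (fun t => x + t) ⁻¹' (S ∩ closedBall x r) := by
    ext t
    simp only [mem_ofPred_eq, mem_Icc, mem_preimage, mem_inter_iff, Real.closedBall_eq_Icc]
    constructor
    · rintro ⟨⟨h1, h2⟩, h3⟩
      exact ⟨h3, by linarith, by linarith⟩
    · rintro ⟨h3, h1, h2⟩
      exact ⟨⟨by linarith, by linarith⟩, h3⟩
  rw [part, h, measure_preimage_add]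

theorem dense1_of_part {S : Set ℝ} {x : ℝ} {k : ℕ}
    (h : ∀ j ≥ k, ENNReal.ofReal ((7 / 4) * (1 / 2) ^ j) < part S x ((1 / 2) ^ j)) :
    Dense1 S x := by
  refine ⟨(1 / 2) ^ (k + 2), by positivity, fun ρ hρ hρr a ha1 ha2 => ?_⟩
  have hle : ((1 : ℝ) / 2) ^ (k + 2) ≤ 1 := pow_le_one₀ (by norm_num) (by norm_num)
  obtain ⟨n, hn1, hn2⟩ := exists_nat_pow_near_of_lt_one (x := 2 * ρ) (y := (1 / 2 : ℝ))
    (by linarith) (by
      have : ((1 : ℝ) / 2) ^ (k + 2) ≤ (1 / 2) ^ 2 :=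
        pow_le_pow_of_le_one (by norm_num) (by norm_num) (by omega)
      norm_num at this ⊢
      linarith) (by norm_num) (by norm_num)
  have hkn : k ≤ n := by
    by_contra hlt
    push Not at hlt
    have h1 : ((1 : ℝ) / 2) ^ (k + 1) ≤ (1 / 2) ^ (n + 1) :=
      pow_le_pow_of_le_one (by norm_num) (by norm_num) (by omega)
    have h2 : ((1 : ℝ) / 2) ^ (k + 2) = (1 / 2) ^ (k + 1) / 2 := by ring
    linarith
  have h3 := h n hkn
  by_contra hcon
  push Not at hcon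
  set r : ℝ := (1 / 2) ^ n with hr
  have hr0 : 0 < r := by positivity
  have hn1' : r / 2 < 2 * ρ := by
    have : ((1 : ℝ) / 2) ^ (n + 1) = r / 2 := by rw [hr]; ring
    linarith
  have hsub : {t : ℝ | t ∈ Icc (-r) r ∧ x + t ∈ S} ⊆ Icc (-r) r \ Ioo a (a + ρ) := by
    rintro t ⟨h4, h5⟩
    exact ⟨h4, fun h6 => hcon t h6 h5⟩
  have hsub2 : Ioo a (a + ρ) ⊆ Icc (-r) r := by
    rintro t ⟨h4, h5⟩
    exact ⟨by linarith, by linarith⟩
  have h4 : part S x r ≤ ENNReal.ofReal (2 * r - ρ) := by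
    calc part S x r ≤ volume (Icc (-r) r \ Ioo a (a + ρ)) := measure_mono hsub
      _ = volume (Icc (-r) r) - volume (Ioo a (a + ρ)) :=
          measure_sdiff hsub2 measurableSet_Ioo.nullMeasurableSet measure_Ioo_lt_top.ne
      _ = ENNReal.ofReal (2 * r - ρ) := by
          rw [Real.volume_Icc, Real.volume_Ioo, ← ENNReal.ofReal_sub _ (by linarith)]
          congr 1
          ring
  have h5 := h3.trans_le h4
  rw [ENNReal.ofReal_lt_ofReal_iff_of_nonneg (by positivity)] at h5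
  linarith

/-- almost every point of a set of reals -/
theorem ae_part (S : Set ℝ) : ∀ᵐ x : ℝ, x ∈ S →
    ∃ k : ℕ, ∀ j ≥ k, ENNReal.ofReal ((7 / 4) * (1 / 2) ^ j) < part S x ((1 / 2) ^ j) := by
  have h := ae_imp_of_ae_restrict (Besicovitch.ae_tendsto_measure_inter_div volume S)
  filter_upwards [h] with x hx hxS
  have h1 : ∀ᶠ r in 𝓝[>] (0 : ℝ), ENNReal.ofReal (7 / 8) <
      volume (S ∩ closedBall x r) / volume (closedBall x r) := by
    refine (hx hxS).eventually (lt_mem_nhds ?_)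
    rw [← ENNReal.ofReal_one]
    exact (ENNReal.ofReal_lt_ofReal_iff one_pos).2 (by norm_num)
  have h2 : Tendsto (fun j : ℕ => ((1 : ℝ) / 2) ^ j) atTop (𝓝[>] 0) := by
    refine tendsto_nhdsWithin_iff.2 ⟨tendsto_pow_atTop_nhds_zero_of_lt_one (by norm_num)
      (by norm_num), Eventually.of_forall fun j => ?_⟩
    show (0 : ℝ) < _
    positivity
  obtain ⟨k, hk⟩ := eventually_atTop.1 (h2.eventually h1)
  refine ⟨k, fun j hj => ?_⟩
  have h3 := hk j hj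
  have hpos : (0 : ℝ) < (1 / 2) ^ j := by positivity
  rw [Real.volume_closedBall, ENNReal.lt_div_iff_mul_lt (Or.inl (by simp [hpos]))
    (Or.inl ENNReal.ofReal_ne_top), ← ENNReal.ofReal_mul (by norm_num)] at h3
  rw [part_eq]
  refine lt_of_eq_of_lt ?_ h3
  congr 1
  ring

/-- the vertical section through `p` -/
def vert (E : Set E2) (x : ℝ) : Set ℝ := {y | (x, y) ∈ E}

/-- almost every point of a closed set is a density point of its vertical section -/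
theorem ae_vertical {E : Set E2} (hE : IsClosed E) :
    ∀ᵐ p : E2, p ∈ E → Dense1 (vert E p.1) p.2 := by
  let G : ℕ → Set E2 := fun j =>
    {p | ENNReal.ofReal ((7 / 4) * (1 / 2) ^ j) < part (vert E p.1) p.2 ((1 / 2) ^ j)}
  have hG : ∀ j, MeasurableSet (G j) := by
    intro j
    let T : Set (E2 × ℝ) := {q | q.2 ∈ Icc (-(1 / 2 : ℝ) ^ j) ((1 / 2) ^ j) ∧
      (q.1.1, q.1.2 + q.2) ∈ E}
    have hT : IsClosed T := by
      refine IsClosed.inter (isClosed_Icc.preimage continuous_snd) (hE.preimage ?_)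
      fun_prop
    have hm : Measurable fun p : E2 => volume (Prod.mk p ⁻¹' T) :=
      measurable_measure_prodMk_left hT.measurableSet
    exact measurableSet_lt measurable_const hm
  have h : ∀ᵐ p : E2, p ∈ E → ∃ k : ℕ, ∀ j ≥ k, p ∈ G j := by
    have hmeas : MeasurableSet {p : E2 | p ∈ E → ∃ k : ℕ, ∀ j ≥ k, p ∈ G j} := by
      have : {p : E2 | p ∈ E → ∃ k : ℕ, ∀ j ≥ k, p ∈ G j} =
          Eᶜ ∪ ⋃ k : ℕ, ⋂ j : ℕ, ⋂ _ : j ≥ k, G j := by
        ext p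
        simp only [mem_ofPred_eq, mem_union, mem_compl_iff, mem_iUnion, mem_iInter]
        tauto
      rw [this]
      exact hE.measurableSet.compl.union
        (MeasurableSet.iUnion fun k => MeasurableSet.iInter fun j => MeasurableSet.iInter fun _ =>
          hG j)
    rw [Measure.volume_eq_prod, Measure.ae_prod_iff_ae_ae hmeas]
    refine Eventually.of_forall fun x => ?_
    filter_upwards [ae_part (vert E x)] with y hy hyE
    exact hy hyE
  filter_upwards [h] with p hp hpE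
  obtain ⟨k, hk⟩ := hp hpE
  exact dense1_of_part hk

theorem ae_swap {P : E2 → Prop} (h : ∀ᵐ p : E2, P p) : ∀ᵐ p : E2, P p.swap := by
  have h1 : MeasurePreserving (Prod.swap : E2 → E2) volume volume := by
    rw [Measure.volume_eq_prod]
    exact Measure.measurePreserving_swap
  exact h1.quasiMeasurePreserving.ae h

theorem ae_horizontal {E : Set E2} (hE : IsClosed E) :
    ∀ᵐ p : E2, p ∈ E → Dense1 {x | (x, p.2) ∈ E} p.1 := by
  have hE' : IsClosed (Prod.swap ⁻¹' E : Set E2) := hE.preimage continuous_swap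
  filter_upwards [ae_swap (ae_vertical hE')] with p hp hpE
  exact hp (by simpa using hpE)

/-- Lipschitz at scale `n` along the horizontal line -/
def EX (F : E2 → ℂ) (n : ℕ) : Set E2 :=
  {p | ∀ h : ℝ, |h| ≤ 1 / ((n : ℝ) + 1) → ‖F (p.1 + h, p.2) - F p‖ ≤ ((n : ℝ) + 1) * |h|}

/-- Lipschitz at scale `n` along the vertical line -/
def EY (F : E2 → ℂ) (n : ℕ) : Set E2 :=
  {p | ∀ h : ℝ, |h| ≤ 1 / ((n : ℝ) + 1) → ‖F (p.1, p.2 + h) - F p‖ ≤ ((n : ℝ) + 1) * |h|}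

theorem isClosed_EX {F : E2 → ℂ} (hF : Continuous F) (n : ℕ) : IsClosed (EX F n) := by
  have : EX F n = ⋂ h : ℝ, ⋂ _ : |h| ≤ 1 / ((n : ℝ) + 1),
      {p | ‖F (p.1 + h, p.2) - F p‖ ≤ ((n : ℝ) + 1) * |h|} := by
    ext p
    simp [EX]
  rw [this]
  exact isClosed_iInter fun h => isClosed_iInter fun _ => isClosed_le (by fun_prop) (by fun_prop)

theorem isClosed_EY {F : E2 → ℂ} (hF : Continuous F) (n : ℕ) : IsClosed (EY F n) := by
  have : EY F n = ⋂ h : ℝ, ⋂ _ : |h| ≤ 1 / ((n : ℝ) + 1),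
      {p | ‖F (p.1, p.2 + h) - F p‖ ≤ ((n : ℝ) + 1) * |h|} := by
    ext p
    simp [EY]
  rw [this]
  exact isClosed_iInter fun h => isClosed_iInter fun _ => isClosed_le (by fun_prop) (by fun_prop)

theorem EX_mono (F : E2 → ℂ) {m n : ℕ} (h : m ≤ n) : EX F m ⊆ EX F n := by
  intro p hp t ht
  have hmn : (m : ℝ) ≤ n := by exact_mod_cast h
  have h1 : 1 / ((n : ℝ) + 1) ≤ 1 / ((m : ℝ) + 1) :=
    one_div_le_one_div_of_le (by positivity) (by linarith)
  exact (hp t (ht.trans h1)).trans (mul_le_mul_of_nonneg_right (by linarith) (abs_nonneg _))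

theorem EY_mono (F : E2 → ℂ) {m n : ℕ} (h : m ≤ n) : EY F m ⊆ EY F n := by
  intro p hp t ht
  have hmn : (m : ℝ) ≤ n := by exact_mod_cast h
  have h1 : 1 / ((n : ℝ) + 1) ≤ 1 / ((m : ℝ) + 1) :=
    one_div_le_one_div_of_le (by positivity) (by linarith)
  exact (hp t (ht.trans h1)).trans (mul_le_mul_of_nonneg_right (by linarith) (abs_nonneg _))

/-- from a bound near `0` to membership for large `n` -/
theorem exists_scale {g : ℝ → ℝ} {C : ℝ} (h : ∀ᶠ t in 𝓝 (0 : ℝ), g t ≤ C * |t|) :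
    ∃ n : ℕ, ∀ t : ℝ, |t| ≤ 1 / ((n : ℝ) + 1) → g t ≤ ((n : ℝ) + 1) * |t| := by
  obtain ⟨η, hη, h⟩ := Metric.eventually_nhds_iff.1 h
  obtain ⟨n, hn⟩ := exists_nat_gt (max C (1 / η))
  have hnC : C < n := (le_max_left _ _).trans_lt hn
  have hnη : 1 / η < n := (le_max_right _ _).trans_lt hn
  have hn0 : (0 : ℝ) < (n : ℝ) + 1 := by positivity
  have hlt : 1 / ((n : ℝ) + 1) < η := by
    rw [div_lt_iff₀ hη] at hnη
    rw [div_lt_iff₀ hn0]
    nlinarith
  refine ⟨n, fun t ht => ?_⟩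
  have h1 := h (y := t) (by rw [Real.dist_eq, sub_zero]; linarith)
  exact h1.trans (mul_le_mul_of_nonneg_right (by linarith) (abs_nonneg _))

/-- an open map has no interior maximum of the distance to a point -/
theorem max_on_boundary {F : E2 → ℂ} (hF : Continuous F) {U : Set E2}
    (hopen : ∀ V ⊆ U, IsOpen V → IsOpen (F '' V)) {x1 x2 y1 y2 : ℝ} {c : ℂ} {M : ℝ} {q : E2}
    (hU : Ioo x1 x2 ×ˢ Ioo y1 y2 ⊆ U) (hq : q ∈ Ioo x1 x2 ×ˢ Ioo y1 y2)
    (hv : ∀ y ∈ Icc y1 y2, ‖F (x1, y) - c‖ ≤ M ∧ ‖F (x2, y) - c‖ ≤ M)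
    (hh : ∀ x ∈ Icc x1 x2, ‖F (x, y1) - c‖ ≤ M ∧ ‖F (x, y2) - c‖ ≤ M) : ‖F q - c‖ ≤ M := by
  have hR : IsCompact (Icc x1 x2 ×ˢ Icc y1 y2 : Set E2) := isCompact_Icc.prod isCompact_Icc
  have hqR : q ∈ Icc x1 x2 ×ˢ Icc y1 y2 := ⟨Ioo_subset_Icc_self hq.1, Ioo_subset_Icc_self hq.2⟩
  obtain ⟨z, hz, hmax⟩ := hR.exists_isMaxOn ⟨q, hqR⟩
    (f := fun p => ‖F p - c‖) (by fun_prop)
  have h1 : ‖F q - c‖ ≤ ‖F z - c‖ := hmax hqR
  refine h1.trans ?_
  by_contra hlt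
  push Not at hlt
  have hzI : z ∈ Ioo x1 x2 ×ˢ Ioo y1 y2 := by
    obtain ⟨zx, zy⟩ := z
    obtain ⟨⟨hz1, hz2⟩, hz3, hz4⟩ := hz
    simp only at hz1 hz2 hz3 hz4
    have e1 : zx ≠ x1 := by
      rintro rfl
      exact absurd (hv zy ⟨hz3, hz4⟩).1 (not_le.2 hlt)
    have e2 : zx ≠ x2 := by
      rintro rfl
      exact absurd (hv zy ⟨hz3, hz4⟩).2 (not_le.2 hlt)
    have e3 : zy ≠ y1 := by
      rintro rfl
      exact absurd (hh zx ⟨hz1, hz2⟩).1 (not_le.2 hlt)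
    have e4 : zy ≠ y2 := by
      rintro rfl
      exact absurd (hh zx ⟨hz1, hz2⟩).2 (not_le.2 hlt)
    exact ⟨⟨lt_of_le_of_ne hz1 e1.symm, lt_of_le_of_ne hz2 e2⟩,
      lt_of_le_of_ne hz3 e3.symm, lt_of_le_of_ne hz4 e4⟩
  have hI : IsOpen (F '' (Ioo x1 x2 ×ˢ Ioo y1 y2)) := hopen _ hU (isOpen_Ioo.prod isOpen_Ioo)
  have hsub : F '' (Ioo x1 x2 ×ˢ Ioo y1 y2) ⊆ closedBall c ‖F z - c‖ := by
    rintro _ ⟨p, hp, rfl⟩
    rw [mem_closedBall, dist_eq_norm]
    exact hmax ⟨Ioo_subset_Icc_self hp.1, Ioo_subset_Icc_self hp.2⟩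
  have hint : F z ∈ interior (closedBall c ‖F z - c‖) :=
    interior_maximal hsub hI (mem_image_of_mem _ hzI)
  rcases eq_or_ne ‖F z - c‖ 0 with h0 | h0
  · have hM : M < 0 := by rw [h0] at hlt; exact hlt
    obtain ⟨a, ha⟩ : (Icc y1 y2).Nonempty := ⟨q.2, hqR.2⟩
    exact absurd ((norm_nonneg _).trans (hv a ha).1) (not_le.2 hM)
  · rw [interior_closedBall _ h0, mem_ball, dist_eq_norm] at hint
    exact lt_irrefl _ hint

/-- **Pointwise Lipschitz bound for open maps.** -/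
theorem ae_pointwise {F : E2 → ℂ} (hF : Continuous F) {U : Set E2} (hU : IsOpen U)
    (hopen : ∀ V ⊆ U, IsOpen V → IsOpen (F '' V))
    (hx : ∀ y, ∀ᵐ x : ℝ, (x, y) ∈ U → ∃ C : ℝ, ∀ᶠ h in 𝓝 (0 : ℝ),
      ‖F (x + h, y) - F (x, y)‖ ≤ C * |h|)
    (hy : ∀ x, ∀ᵐ y : ℝ, (x, y) ∈ U → ∃ C : ℝ, ∀ᶠ h in 𝓝 (0 : ℝ),
      ‖F (x, y + h) - F (x, y)‖ ≤ C * |h|) :
    ∀ᵐ p : E2, p ∈ U → ∃ C : ℝ, ∀ᶠ q in 𝓝 p, ‖F q - F p‖ ≤ C * dist q p := by
  have hY : ∀ᵐ p : E2, p ∈ U → ∃ n, p ∈ EY F n := by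
    have hmeas : MeasurableSet {p : E2 | p ∈ U → ∃ n, p ∈ EY F n} := by
      have : {p : E2 | p ∈ U → ∃ n, p ∈ EY F n} = Uᶜ ∪ ⋃ n, EY F n := by
        ext p
        simp only [mem_ofPred_eq, mem_union, mem_compl_iff, mem_iUnion]
        tauto
      rw [this]
      exact hU.measurableSet.compl.union
        (MeasurableSet.iUnion fun n => (isClosed_EY hF n).measurableSet)
    rw [Measure.volume_eq_prod, Measure.ae_prod_iff_ae_ae hmeas]
    refine Eventually.of_forall fun x => ?_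
    filter_upwards [hy x] with y h hp
    obtain ⟨C, hC⟩ := h hp
    exact exists_scale hC
  have hX : ∀ᵐ p : E2, p ∈ U → ∃ n, p ∈ EX F n := by
    have hmeas : MeasurableSet {p : E2 | p.swap ∈ U → ∃ n, p.swap ∈ EX F n} := by
      have : {p : E2 | p.swap ∈ U → ∃ n, p.swap ∈ EX F n} =
          Prod.swap ⁻¹' (Uᶜ ∪ ⋃ n, EX F n) := by
        ext p
        simp only [mem_ofPred_eq, mem_union, mem_compl_iff, mem_iUnion, mem_preimage]
        tauto
      rw [this]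
      exact measurable_swap (hU.measurableSet.compl.union
        (MeasurableSet.iUnion fun n => (isClosed_EX hF n).measurableSet))
    have h1 : ∀ᵐ p : E2, p.swap ∈ U → ∃ n, p.swap ∈ EX F n := by
      rw [Measure.volume_eq_prod, Measure.ae_prod_iff_ae_ae hmeas]
      refine Eventually.of_forall fun y => ?_
      filter_upwards [hx y] with x h hp
      obtain ⟨C, hC⟩ := h hp
      exact exists_scale hC
    filter_upwards [ae_swap h1] with p hp
    simpa using hp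
  have hV := ae_all_iff.2 fun n : ℕ => ae_vertical ((isClosed_EX hF n).inter (isClosed_EY hF n))
  have hH := ae_all_iff.2 fun n : ℕ => ae_horizontal ((isClosed_EX hF n).inter (isClosed_EY hF n))
  filter_upwards [hX, hY, hV, hH] with p hpX hpY hpV hpH hpU
  obtain ⟨n1, hn1⟩ := hpX hpU
  obtain ⟨n2, hn2⟩ := hpY hpU
  set n := max n1 n2 with hn
  have hp1 : p ∈ EX F n := EX_mono F (le_max_left _ _) hn1
  have hp2 : p ∈ EY F n := EY_mono F (le_max_right _ _) hn2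
  obtain ⟨r1, hr1, hd1⟩ := hpV n ⟨hp1, hp2⟩
  obtain ⟨r2, hr2, hd2⟩ := hpH n ⟨hp1, hp2⟩
  obtain ⟨r3, hr3, hball⟩ := Metric.isOpen_iff.1 hU p hpU
  have hN : (0 : ℝ) < (n : ℝ) + 1 := by positivity
  set r : ℝ := min (min r1 r2) (min (r3 / 3) (1 / (4 * ((n : ℝ) + 1)))) with hr
  have hr0 : 0 < r := by
    refine lt_min (lt_min hr1 hr2) (lt_min (by linarith) (by positivity))
  refine ⟨4 * ((n : ℝ) + 1), ?_⟩
  filter_upwards [ball_mem_nhds p hr0] with q hq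
  rcases eq_or_ne q p with rfl | hne
  · simp
  set ρ : ℝ := dist q p with hρ
  have hρ0 : 0 < ρ := dist_pos.2 hne
  have hρr : ρ < r := hq
  have hρ1 : ρ < r1 := hρr.trans_le ((min_le_left _ _).trans (min_le_left _ _))
  have hρ2 : ρ < r2 := hρr.trans_le ((min_le_left _ _).trans (min_le_right _ _))
  have hρ3 : ρ < r3 / 3 := hρr.trans_le ((min_le_right _ _).trans (min_le_left _ _))
  have hρ4 : ρ < 1 / (4 * ((n : ℝ) + 1)) :=
    hρr.trans_le ((min_le_right _ _).trans (min_le_right _ _))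
  have hscale : 2 * ρ ≤ 1 / ((n : ℝ) + 1) := by
    have : 1 / (4 * ((n : ℝ) + 1)) = 1 / ((n : ℝ) + 1) / 4 := by field_simp
    have h0 : 0 < 1 / ((n : ℝ) + 1) := by positivity
    linarith
  set a := q.1 - p.1 with ha
  set b := q.2 - p.2 with hb
  have hab : max |a| |b| = ρ := by
    rw [hρ, Prod.dist_eq, Real.dist_eq, Real.dist_eq]
  have ha' : |a| ≤ ρ := (le_max_left _ _).trans hab.le
  have hb' : |b| ≤ ρ := (le_max_right _ _).trans hab.le
  rw [abs_le] at ha' hb'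
  obtain ⟨x1, hx1, hx1E⟩ := hd2 ρ hρ0 hρ2 (a - ρ) (by linarith) (by linarith)
  obtain ⟨x2, hx2, hx2E⟩ := hd2 ρ hρ0 hρ2 a (by linarith) (by linarith)
  obtain ⟨y1, hy1, hy1E⟩ := hd1 ρ hρ0 hρ1 (b - ρ) (by linarith) (by linarith)
  obtain ⟨y2, hy2, hy2E⟩ := hd1 ρ hρ0 hρ1 b (by linarith) (by linarith)
  simp only [mem_Ioo, sub_add_cancel] at hx1 hx2 hy1 hy2
  -- vertical sides
  have vside : ∀ x, -(2 * ρ) ≤ x → x ≤ 2 * ρ → (p.1 + x, p.2) ∈ EX F n ∩ EY F n →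
      ∀ y, -(2 * ρ) ≤ y → y ≤ 2 * ρ → ‖F (p.1 + x, p.2 + y) - F p‖ ≤ 4 * ((n : ℝ) + 1) * ρ := by
    intro x hx1 hx2 hxE y hy1 hy2
    have h1 : ‖F (p.1 + x, p.2) - F p‖ ≤ ((n : ℝ) + 1) * |x| :=
      hp1 x ((abs_le.2 ⟨hx1, hx2⟩).trans hscale)
    have h2 : ‖F (p.1 + x, p.2 + y) - F (p.1 + x, p.2)‖ ≤ ((n : ℝ) + 1) * |y| :=
      hxE.2 y ((abs_le.2 ⟨hy1, hy2⟩).trans hscale)
    have h3 : |x| ≤ 2 * ρ := abs_le.2 ⟨hx1, hx2⟩
    have h4 : |y| ≤ 2 * ρ := abs_le.2 ⟨hy1, hy2⟩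
    calc ‖F (p.1 + x, p.2 + y) - F p‖
        = ‖(F (p.1 + x, p.2 + y) - F (p.1 + x, p.2)) + (F (p.1 + x, p.2) - F p)‖ := by
          rw [sub_add_sub_cancel]
      _ ≤ _ := norm_add_le _ _
      _ ≤ ((n : ℝ) + 1) * (2 * ρ) + ((n : ℝ) + 1) * (2 * ρ) :=
          add_le_add (h2.trans (mul_le_mul_of_nonneg_left h4 hN.le))
            (h1.trans (mul_le_mul_of_nonneg_left h3 hN.le))
      _ = _ := by ring
  have hside : ∀ y, -(2 * ρ) ≤ y → y ≤ 2 * ρ → (p.1, p.2 + y) ∈ EX F n ∩ EY F n →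
      ∀ x, -(2 * ρ) ≤ x → x ≤ 2 * ρ → ‖F (p.1 + x, p.2 + y) - F p‖ ≤ 4 * ((n : ℝ) + 1) * ρ := by
    intro y hy1 hy2 hyE x hx1 hx2
    have h1 : ‖F (p.1, p.2 + y) - F p‖ ≤ ((n : ℝ) + 1) * |y| :=
      hp2 y ((abs_le.2 ⟨hy1, hy2⟩).trans hscale)
    have h2 : ‖F (p.1 + x, p.2 + y) - F (p.1, p.2 + y)‖ ≤ ((n : ℝ) + 1) * |x| :=
      hyE.1 x ((abs_le.2 ⟨hx1, hx2⟩).trans hscale)
    have h3 : |x| ≤ 2 * ρ := abs_le.2 ⟨hx1, hx2⟩
    have h4 : |y| ≤ 2 * ρ := abs_le.2 ⟨hy1, hy2⟩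
    calc ‖F (p.1 + x, p.2 + y) - F p‖
        = ‖(F (p.1 + x, p.2 + y) - F (p.1, p.2 + y)) + (F (p.1, p.2 + y) - F p)‖ := by
          rw [sub_add_sub_cancel]
      _ ≤ _ := norm_add_le _ _
      _ ≤ ((n : ℝ) + 1) * (2 * ρ) + ((n : ℝ) + 1) * (2 * ρ) :=
          add_le_add (h2.trans (mul_le_mul_of_nonneg_left h3 hN.le))
            (h1.trans (mul_le_mul_of_nonneg_left h4 hN.le))
      _ = _ := by ring
  refine max_on_boundary hF hopen (x1 := p.1 + x1) (x2 := p.1 + x2) (y1 := p.2 + y1)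
    (y2 := p.2 + y2) (U := U) ?_ ?_ ?_ ?_
  · rintro ⟨u, v⟩ ⟨⟨hu1, hu2⟩, hv1, hv2⟩
    apply hball
    simp only at hu1 hu2 hv1 hv2
    rw [mem_ball, Prod.dist_eq, Real.dist_eq, Real.dist_eq, max_lt_iff, abs_lt, abs_lt]
    refine ⟨⟨?_, ?_⟩, ?_, ?_⟩ <;> simp only <;> linarith
  · refine ⟨⟨?_, ?_⟩, ?_, ?_⟩ <;> linarith
  · rintro y ⟨h1, h2⟩
    have e : y = p.2 + (y - p.2) := by ring
    rw [e]
    exact ⟨vside x1 (by linarith) (by linarith) hx1E _ (by linarith) (by linarith),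
      vside x2 (by linarith) (by linarith) hx2E _ (by linarith) (by linarith)⟩
  · rintro x ⟨h1, h2⟩
    have e : x = p.1 + (x - p.1) := by ring
    rw [e]
    exact ⟨hside y1 (by linarith) (by linarith) hy1E _ (by linarith) (by linarith),
      hside y2 (by linarith) (by linarith) hy2E _ (by linarith) (by linarith)⟩

/-- **The theorem of Gehring and Lehto**, for continuous open maps. -/
theorem gehring_lehto {F : E2 → ℂ} (hF : Continuous F) {U : Set E2} (hU : IsOpen U)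
    (hopen : ∀ V ⊆ U, IsOpen V → IsOpen (F '' V))
    (hx : ∀ y, ∀ᵐ x : ℝ, (x, y) ∈ U → DifferentiableAt ℝ (fun t => F (t, y)) x)
    (hy : ∀ x, ∀ᵐ y : ℝ, (x, y) ∈ U → DifferentiableAt ℝ (fun t => F (x, t)) y) :
    ∀ᵐ p : E2, p ∈ U → DifferentiableAt ℝ F p := by
  have key : ∀ (g : ℝ → ℂ) (x : ℝ), DifferentiableAt ℝ g x →
      ∃ C : ℝ, ∀ᶠ h in 𝓝 (0 : ℝ), ‖g (x + h) - g x‖ ≤ C * |h| := by
    intro g x hg
    obtain ⟨C, hC⟩ := hg.isBigO_sub.bound
    refine ⟨C, ?_⟩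
    have h1 : Tendsto (fun h : ℝ => x + h) (𝓝 0) (𝓝 x) := by
      have : Continuous fun h : ℝ => x + h := by fun_prop
      simpa using this.tendsto 0
    filter_upwards [h1.eventually hC] with h hh
    simpa using hh
  have h1 := ae_pointwise hF hU hopen
    (fun y => by
      filter_upwards [hx y] with x h hp
      exact key _ _ (h hp))
    (fun x => by
      filter_upwards [hy x] with y h hp
      exact key _ _ (h hp))
  filter_upwards [h1, stepanov F] with p hp1 hp2 hpU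
  exact hp2 (hp1 hpU)

end Pool.Agent.Helper61A
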