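import Pool.Agent.Helper61A.Surf

/-!
# Homeomorphisms of surfaces mapping `C¹` curves to `C¹` curves are differentiable a.e.

The proof works in the coordinate `w = 1 / (z - q)` for a point `q` close to the given point: the
lines parallel to the axes in the `w`-plane are round circles in the `z`-plane.
-/

set_option autoImplicit false

open Set Filter MeasureTheory Topology Metric
open scoped Manifold ContDiff

namespace Pool.Agent.Helper61A

open R789.C1

variable {S : Type*} [TopologicalSpace S] [ChartedSpace ℂ S]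

/-- clamping to a rectangle -/
noncomputable def clamp (a b c d : ℝ) (p : E2) : E2 := (max a (min b p.1), max c (min d p.2))

theorem continuous_clamp (a b c d : ℝ) : Continuous (clamp a b c d) := by
  unfold clamp
  fun_prop

theorem clamp_eq {a b c d : ℝ} {p : E2} (hp : p ∈ Ioo a b ×ˢ Ioo c d) : clamp a b c d p = p := by
  obtain ⟨⟨h1, h2⟩, h3, h4⟩ := hp
  unfold clamp
  rw [min_eq_right h2.le, max_eq_right h1.le, min_eq_right h4.le, max_eq_right h3.le]

variable [T2Space S] [IsManifold 𝓘(ℝ, ℂ) ∞ S]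

theorem local_null {f : S ≃ₜ S} (hf : ∀ Γ : Set S, IsC1Curve Γ → IsC1Curve (f '' Γ))
    {φ : OpenPartialHomeomorph S ℂ} (hφ : φ ∈ IsManifold.maximalAtlas 𝓘(ℝ, ℂ) ∞ S) {z₀ : ℂ}
    (hz₀ : z₀ ∈ φ.target) :
    ∃ W ∈ 𝓝 z₀, volume (W ∩ {z | ¬ MDifferentiableAt 𝓘(ℝ, ℂ) 𝓘(ℝ, ℂ) f (φ.symm z)}) = 0 := by
  set ψ := chartAt ℂ (f (φ.symm z₀)) with hψdef
  have hψ : ψ ∈ IsManifold.maximalAtlas 𝓘(ℝ, ℂ) ∞ S := IsManifold.chart_mem_maximalAtlas _
  have hO : IsOpen (φ.target ∩ φ.symm ⁻¹' (f ⁻¹' ψ.source)) :=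
    φ.symm.isOpen_inter_preimage (ψ.open_source.preimage f.continuous)
  obtain ⟨ε, hε, hball⟩ := Metric.isOpen_iff.1 hO z₀ ⟨hz₀, mem_chart_source ℂ (f (φ.symm z₀))⟩
  set ρ : ℝ := ε / 7 with hρ
  have hρ0 : 0 < ρ := by positivity
  set q : ℂ := z₀ - ρ * (1 + Complex.I) with hq
  let G : ℂ → ℂ := fun w => q + w⁻¹
  set a : ℝ := 1 / (4 * ρ) with ha
  set b : ℝ := 3 / (4 * ρ) with hb
  have ha0 : 0 < a := by positivity
  have hab : a < b := by
    rw [ha, hb]
    exact div_lt_div_of_pos_right (by norm_num) (by positivity)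
  have hinva : 1 / a = 4 * ρ := by rw [ha, one_div_one_div]
  have hqz : dist q z₀ ≤ 2 * ρ := by
    rw [dist_eq_norm, hq]
    have h1 : z₀ - ρ * (1 + Complex.I) - z₀ = -(ρ * (1 + Complex.I)) := by ring
    rw [h1, norm_neg, norm_mul, Complex.norm_real, Real.norm_eq_abs, abs_of_pos hρ0]
    have h2 : ‖(1 + Complex.I : ℂ)‖ ≤ 2 := by
      refine (norm_add_le _ _).trans ?_
      rw [norm_one, Complex.norm_I]
      norm_num
    nlinarith
  -- points at distance at most `4ρ` from `q` are in the neighbourhood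
  have hnear : ∀ z : ℂ, ‖z - q‖ ≤ 4 * ρ → z ∈ φ.target ∧ f (φ.symm z) ∈ ψ.source := by
    intro z hz
    have h1 : z ∈ ball z₀ ε := by
      rw [mem_ball]
      have h2 := dist_triangle z q z₀
      rw [dist_eq_norm z q] at h2
      have h3 : ε = 7 * ρ := by rw [hρ]; ring
      linarith
    exact hball h1
  have hGA : ∀ w : ℂ, a ≤ ‖w‖ → w ≠ 0 ∧ G w ∈ φ.target ∧ f (φ.symm (G w)) ∈ ψ.source := by
    intro w hw
    have hw0 : 0 < ‖w‖ := ha0.trans_le hw
    refine ⟨norm_pos_iff.1 hw0, hnear _ ?_⟩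
    show ‖q + w⁻¹ - q‖ ≤ 4 * ρ
    rw [add_sub_cancel_left, norm_inv, ← hinva, one_div]
    exact inv_anti₀ ha0 hw
  let Φ : ℂ → ℂ := fun w => ψ (f (φ.symm (G w)))
  have hGc : ContinuousOn G {w | a ≤ ‖w‖} := by
    intro w hw
    exact (continuousAt_const.add (continuousAt_inv₀ (hGA w hw).1)).continuousWithinAt
  have hfGc : ContinuousOn (fun w => f (φ.symm (G w))) {w | a ≤ ‖w‖} :=
    f.continuous.comp_continuousOn (φ.symm.continuousOn.comp hGc fun w hw => (hGA w hw).2.1)
  have hΦc : ContinuousOn Φ {w | a ≤ ‖w‖} :=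
    ψ.continuousOn.comp hfGc fun w hw => (hGA w hw).2.2
  set U : Set E2 := Ioo a b ×ˢ Ioo (-b) (-a) with hU
  have hUo : IsOpen U := isOpen_Ioo.prod isOpen_Ioo
  let F : E2 → ℂ := fun p => Φ (P (clamp a b (-b) (-a) p))
  have hclampA : ∀ p, a ≤ ‖P (clamp a b (-b) (-a) p)‖ := by
    intro p
    have h1 : a ≤ (P (clamp a b (-b) (-a) p)).re := by
      rw [P_apply]
      simp [clamp]
    exact h1.trans ((le_abs_self _).trans (Complex.abs_re_le_norm _))
  have hFc : Continuous F :=
    hΦc.comp_continuous (P.continuous.comp (continuous_clamp _ _ _ _)) hclampA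
  have hFU : ∀ p ∈ U, F p = Φ (P p) := by
    intro p hp
    show Φ (P (clamp a b (-b) (-a) p)) = Φ (P p)
    rw [clamp_eq hp]
  have hUA : ∀ p ∈ U, a ≤ ‖P p‖ := by
    intro p hp
    have h1 : a ≤ (P p).re := by
      rw [P_apply]
      simpa using hp.1.1.le
    exact h1.trans ((le_abs_self _).trans (Complex.abs_re_le_norm _))
  -- the inversion is open
  have hGopen : ∀ V : Set ℂ, IsOpen V → (∀ w ∈ V, w ≠ 0) → IsOpen (G '' V) := by
    intro V hV hV0
    have h1 : G '' V = {q}ᶜ ∩ (fun z => (z - q)⁻¹) ⁻¹' V := by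
      ext z
      constructor
      · rintro ⟨w, hw, rfl⟩
        have hw0 : w⁻¹ ≠ 0 := inv_ne_zero (hV0 w hw)
        refine ⟨?_, ?_⟩
        · show q + w⁻¹ ≠ q
          intro h
          exact hw0 (by simpa using h)
        · show (q + w⁻¹ - q)⁻¹ ∈ V
          rwa [add_sub_cancel_left, inv_inv]
      · rintro ⟨h1, h2⟩
        refine ⟨(z - q)⁻¹, h2, ?_⟩
        show q + (z - q)⁻¹⁻¹ = z
        rw [inv_inv]
        ring
    rw [h1]
    refine ContinuousOn.isOpen_inter_preimage ?_ isOpen_compl_singleton hV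
    intro z hz
    have : z - q ≠ 0 := sub_ne_zero.2 hz
    exact ((continuousAt_id.sub continuousAt_const).inv₀ this).continuousWithinAt
  have hopen : ∀ V ⊆ U, IsOpen V → IsOpen (F '' V) := by
    intro V hV hVo
    have h1 : F '' V = ψ '' (f '' (φ.symm '' (G '' (P '' V)))) := by
      simp only [image_image]
      exact image_congr fun p hp => hFU p (hV hp)
    have h2 : IsOpen (P '' V) := P.toHomeomorph.isOpenMap V hVo
    have h3 : IsOpen (G '' (P '' V)) := hGopen _ h2 (by
      rintro _ ⟨p, hp, rfl⟩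
      exact (hGA _ (hUA p (hV hp))).1)
    have h4 : IsOpen (φ.symm '' (G '' (P '' V))) := by
      refine φ.symm.isOpen_image_of_subset_source h3 ?_
      rintro _ ⟨_, ⟨p, hp, rfl⟩, rfl⟩
      exact (hGA _ (hUA p (hV hp))).2.1
    have h5 : IsOpen (f '' (φ.symm '' (G '' (P '' V)))) := f.isOpenMap _ h4
    rw [h1]
    refine ψ.isOpen_image_of_subset_source h5 ?_
    rintro _ ⟨_, ⟨_, ⟨_, ⟨p, hp, rfl⟩, rfl⟩, rfl⟩, rfl⟩
    exact (hGA _ (hUA p (hV hp))).2.2
  have hGinj : ∀ w w' : ℂ, G w = G w' → w = w' := by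
    intro w w' h
    exact inv_injective (add_left_cancel h)
  -- differentiability along a line inside a circle
  have hline : ∀ (l : ℝ → ℂ) (c d : ℝ) (m : ℂ) (R : ℝ), 0 < R → Continuous l → Function.Injective l →
      (∀ t ∈ Ioo c d, a ≤ ‖l t‖) → (∀ t, G (l t) ∈ sphere m R) → sphere m R ⊆ φ.target →
      ∀ᵐ t : ℝ, t ∈ Ioo c d → DifferentiableAt ℝ (fun t => Φ (l t)) t := by
    intro l c d m R hR hl hli hlA hls hsφ
    have hΓ := hf _ (isC1Curve_circle hφ hR hsφ)
    have h1 : ContinuousOn (fun t => f (φ.symm (G (l t)))) (Ioo c d) :=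
      hfGc.comp hl.continuousOn hlA
    have h2 : InjOn (fun t => f (φ.symm (G (l t)))) (Ioo c d) := by
      intro s hs t ht hst
      exact hli (hGinj _ _ (φ.symm.injOn (hGA _ (hlA s hs)).2.1 (hGA _ (hlA t ht)).2.1
        (f.injective hst)))
    filter_upwards [ae_path hΓ h1 h2 fun t _ => ⟨_, ⟨_, hls t, rfl⟩, rfl⟩] with t ht htI
    have h3 := ht htI
    have h4 : MDifferentiableAt 𝓘(ℝ, ℂ) 𝓘(ℝ, ℂ) ψ (f (φ.symm (G (l t)))) :=
      (contMDiffAt_of_mem_maximalAtlas hψ (hGA _ (hlA t htI)).2.2).mdifferentiableAt (by simp)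
    exact mdifferentiableAt_iff_differentiableAt.1 (h4.comp t h3)
  have hx : ∀ y, ∀ᵐ x : ℝ, (x, y) ∈ U → DifferentiableAt ℝ (fun t => F (t, y)) x := by
    intro y
    by_cases hy : y ∈ Ioo (-b) (-a)
    · have hy0 : y ≠ 0 := by
        intro h
        rw [h] at hy
        linarith [hy.2]
      have hya : a ≤ |y| := by
        rw [abs_of_neg (by linarith [hy.2])]
        linarith [hy.2]
      have hPy : ∀ t : ℝ, P (t, y) = (t : ℂ) + y * Complex.I := fun t => P_apply (t, y)
      have h1 := hline (fun t => P (t, y)) a b (q - Complex.I / (2 * y)) (1 / (2 * |y|))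
        (by have := abs_pos.2 hy0; positivity) (by fun_prop)
        (fun s t h => by
          have := P.injective h
          exact congrArg Prod.fst this)
        (fun t ht => by
          have h1 : a ≤ (P (t, y)).re := by
            rw [hPy]
            simpa using ht.1.le
          exact h1.trans ((le_abs_self _).trans (Complex.abs_re_le_norm _)))
        (fun t => by
          rw [mem_sphere, dist_eq_norm, ← horizontal_circle t hy0, hPy]
          congr 1
          show q + _ - _ = _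
          ring)
        (by
          intro z hz
          rw [mem_sphere, dist_eq_norm] at hz
          refine (hnear z ?_).1
          have h2 : z - q = (z - (q - Complex.I / (2 * y))) - Complex.I / (2 * y) := by ring
          have h3 : ‖Complex.I / (2 * (y : ℂ))‖ = 1 / (2 * |y|) := by
            rw [norm_div, norm_mul, Complex.norm_I, Complex.norm_real, Real.norm_eq_abs]
            simp
          calc ‖z - q‖ ≤ ‖z - (q - Complex.I / (2 * y))‖ + ‖Complex.I / (2 * (y : ℂ))‖ := by
                rw [h2]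
                exact norm_sub_le _ _
            _ = 1 / |y| := by
                rw [hz, h3]
                have : |y| ≠ 0 := abs_ne_zero.2 hy0
                field_simp
                norm_num
            _ ≤ 1 / a := one_div_le_one_div_of_le ha0 hya
            _ = 4 * ρ := hinva)
      filter_upwards [h1] with x hx hxU
      have h2 := hx hxU.1
      refine h2.congr_of_eventuallyEq ?_
      filter_upwards [isOpen_Ioo.mem_nhds hxU.1] with t ht
      exact hFU (t, y) ⟨ht, hy⟩
    · exact Eventually.of_forall fun x hxU => absurd hxU.2 hy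
  have hy : ∀ x, ∀ᵐ y : ℝ, (x, y) ∈ U → DifferentiableAt ℝ (fun t => F (x, t)) y := by
    intro x
    by_cases hx : x ∈ Ioo a b
    · have hx0 : x ≠ 0 := by
        intro h
        rw [h] at hx
        linarith [hx.1]
      have hxa : a ≤ |x| := by
        rw [abs_of_pos (by linarith [hx.1])]
        linarith [hx.1]
      have hPx : ∀ t : ℝ, P (x, t) = (x : ℂ) + t * Complex.I := fun t => P_apply (x, t)
      have h1 := hline (fun t => P (x, t)) (-b) (-a) (q + 1 / (2 * x)) (1 / (2 * |x|))
        (by have := abs_pos.2 hx0; positivity) (by fun_prop)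
        (fun s t h => by
          have := P.injective h
          exact congrArg Prod.snd this)
        (fun t ht => by
          have h1 : a ≤ (P (x, t)).re := by
            rw [hPx]
            simpa using hx.1.le
          exact h1.trans ((le_abs_self _).trans (Complex.abs_re_le_norm _)))
        (fun t => by
          rw [mem_sphere, dist_eq_norm, ← vertical_circle t hx0, hPx]
          congr 1
          show q + _ - _ = _
          ring)
        (by
          intro z hz
          rw [mem_sphere, dist_eq_norm] at hz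
          refine (hnear z ?_).1
          have h2 : z - q = (z - (q + 1 / (2 * x))) + 1 / (2 * x) := by ring
          have h3 : ‖(1 : ℂ) / (2 * (x : ℂ))‖ = 1 / (2 * |x|) := by
            rw [norm_div, norm_mul, norm_one, Complex.norm_real, Real.norm_eq_abs]
            simp
          calc ‖z - q‖ ≤ ‖z - (q + 1 / (2 * x))‖ + ‖(1 : ℂ) / (2 * (x : ℂ))‖ := by
                rw [h2]
                exact norm_add_le _ _
            _ = 1 / |x| := by
                rw [hz, h3]
                have : |x| ≠ 0 := abs_ne_zero.2 hx0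
                field_simp
                norm_num
            _ ≤ 1 / a := one_div_le_one_div_of_le ha0 hxa
            _ = 4 * ρ := hinva)
      filter_upwards [h1] with y hy hyU
      have h2 := hy hyU.2
      refine h2.congr_of_eventuallyEq ?_
      filter_upwards [isOpen_Ioo.mem_nhds hyU.2] with t ht
      exact hFU (x, t) ⟨hx, ht⟩
    · exact Eventually.of_forall fun y hyU => absurd hyU.1 hx
  have hGL := gehring_lehto hFc hUo hopen hx hy
  -- the exceptional set
  have hnull : volume {p : E2 | ¬ (p ∈ U → DifferentiableAt ℝ F p)} = 0 := hGL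
  have hPnull : volume (P '' {p : E2 | ¬ (p ∈ U → DifferentiableAt ℝ F p)}) = 0 := by
    have h1 : MeasurePreserving (Complex.measurableEquivRealProd) volume volume :=
      Complex.volume_preserving_equiv_real_prod
    have h2 : P '' {p : E2 | ¬ (p ∈ U → DifferentiableAt ℝ F p)} =
        Complex.measurableEquivRealProd ⁻¹' {p : E2 | ¬ (p ∈ U → DifferentiableAt ℝ F p)} := by
      ext w
      constructor
      · rintro ⟨p, hp, rfl⟩
        have : Complex.measurableEquivRealProd (P p) = p := Complex.equivRealProdCLM.apply_symm_apply p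
        rw [mem_preimage, this]
        exact hp
      · intro hw
        exact ⟨_, hw, Complex.equivRealProdCLM.symm_apply_apply w⟩
    rw [h2, h1.measure_preimage_equiv]
    exact hnull
  set N : Set ℂ := P '' {p : E2 | ¬ (p ∈ U → DifferentiableAt ℝ F p)} with hN
  have hN0 : ∀ w ∈ N, w ≠ 0 := by
    rintro _ ⟨p, hp, rfl⟩
    rw [mem_ofPred_eq, Classical.not_imp] at hp
    exact (hGA _ (hUA p hp.1)).1
  have hGnull : volume (G '' N) = 0 := by
    refine addHaar_image_eq_zero_of_differentiableOn_of_addHaar_eq_zero volume ?_ hPnull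
    intro w hw
    have h1 : DifferentiableAt ℂ G w := (differentiableAt_inv (hN0 w hw)).const_add q
    exact (h1.restrictScalars ℝ).differentiableWithinAt
  have hWo : IsOpen (G '' (P '' U)) := by
    refine hGopen _ (P.toHomeomorph.isOpenMap U hUo) ?_
    rintro _ ⟨p, hp, rfl⟩
    exact (hGA _ (hUA p hp)).1
  refine ⟨G '' (P '' U), hWo.mem_nhds ?_, ?_⟩
  · refine ⟨_, ⟨(1 / (2 * ρ), -(1 / (2 * ρ))), ⟨⟨?_, ?_⟩, ?_, ?_⟩, rfl⟩, ?_⟩
    · show a < 1 / (2 * ρ)
      rw [ha]
      exact one_div_lt_one_div_of_lt (by positivity) (by linarith)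
    · show 1 / (2 * ρ) < b
      rw [hb, div_lt_div_iff₀ (by positivity) (by positivity)]
      linarith
    · show -b < -(1 / (2 * ρ))
      rw [neg_lt_neg_iff, hb, div_lt_div_iff₀ (by positivity) (by positivity)]
      linarith
    · show -(1 / (2 * ρ)) < -a
      rw [neg_lt_neg_iff, ha]
      exact one_div_lt_one_div_of_lt (by positivity) (by linarith)
    · show q + (P (1 / (2 * ρ), -(1 / (2 * ρ))))⁻¹ = z₀
      rw [P_apply, hq]
      have hρc : (ρ : ℂ) ≠ 0 := by exact_mod_cast hρ0.ne'
      have h1 : (((1 / (2 * ρ) : ℝ) : ℂ) + ((-(1 / (2 * ρ)) : ℝ) : ℂ) * Complex.I)⁻¹ =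
          ρ * (1 + Complex.I) := by
        refine inv_eq_of_mul_eq_one_right ?_
        push_cast
        field_simp
        ring_nf
        simp only [Complex.I_sq]
        ring
      rw [h1]
      ring
  · refine measure_mono_null ?_ hGnull
    rintro z ⟨⟨_, ⟨p, hp, rfl⟩, rfl⟩, hz⟩
    refine ⟨P p, ⟨p, ?_, rfl⟩, rfl⟩
    intro hdiff
    apply hz
    have hFd : DifferentiableAt ℝ F p := hdiff hp
    have hA := hGA _ (hUA p hp)
    -- `f` in terms of `F`
    let H : S → E2 := fun s => P.symm ((φ s - q)⁻¹)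
    have hs : φ (φ.symm (G (P p))) = G (P p) := φ.right_inv hA.2.1
    have hHp : H (φ.symm (G (P p))) = p := by
      show P.symm ((φ (φ.symm (G (P p))) - q)⁻¹) = p
      rw [hs]
      show P.symm ((q + (P p)⁻¹ - q)⁻¹) = p
      rw [add_sub_cancel_left, inv_inv, P.symm_apply_apply]
    have hsrc : φ.symm (G (P p)) ∈ φ.source := φ.map_target hA.2.1
    have hφd : MDifferentiableAt 𝓘(ℝ, ℂ) 𝓘(ℝ, ℂ) φ (φ.symm (G (P p))) :=
      (contMDiffAt_of_mem_maximalAtlas hφ hsrc).mdifferentiableAt (by simp)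
    have hinvd : DifferentiableAt ℝ (fun z : ℂ => P.symm ((z - q)⁻¹)) (φ (φ.symm (G (P p)))) := by
      have h1 : DifferentiableAt ℂ (fun z : ℂ => (z - q)⁻¹) (φ (φ.symm (G (P p)))) := by
        refine (differentiableAt_id.sub_const q).inv ?_
        rw [hs]
        show q + (P p)⁻¹ - q ≠ 0
        rw [add_sub_cancel_left]
        exact inv_ne_zero hA.1
      exact P.symm.differentiableAt.comp _ (h1.restrictScalars ℝ)
    have hHd : MDifferentiableAt 𝓘(ℝ, ℂ) 𝓘(ℝ, E2) H (φ.symm (G (P p))) :=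
      hinvd.mdifferentiableAt.comp _ hφd
    have hFH : MDifferentiableAt 𝓘(ℝ, ℂ) 𝓘(ℝ, ℂ) (F ∘ H) (φ.symm (G (P p))) := by
      refine MDifferentiableAt.comp _ ?_ hHd
      rw [hHp]
      exact hFd.mdifferentiableAt
    have hFHv : (F ∘ H) (φ.symm (G (P p))) ∈ ψ.target := by
      show F (H (φ.symm (G (P p)))) ∈ ψ.target
      rw [hHp, hFU p hp]
      exact ψ.map_source hA.2.2
    have hψd : MDifferentiableAt 𝓘(ℝ, ℂ) 𝓘(ℝ, ℂ) ψ.symm ((F ∘ H) (φ.symm (G (P p)))) :=
      (contMDiffAt_symm_of_mem_maximalAtlas hψ hFHv).mdifferentiableAt (by simp)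
    refine (hψd.comp _ hFH).congr_of_eventuallyEq ?_
    have hev : ∀ᶠ s in 𝓝 (φ.symm (G (P p))), s ∈ φ.source ∧ H s ∈ U := by
      refine Filter.Eventually.and (φ.open_source.mem_nhds hsrc) ?_
      refine hHd.continuousAt.eventually ?_
      rw [hHp]
      exact hUo.mem_nhds hp
    filter_upwards [hev] with s ⟨hs1, hs2⟩
    show f s = ψ.symm (F (H s))
    rw [hFU _ hs2]
    have hPH : P (H s) = (φ s - q)⁻¹ := P.apply_symm_apply _
    have hA' := hGA _ (hUA _ hs2)
    have hGP : G (P (H s)) = φ s := by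
      rw [hPH]
      show q + (φ s - q)⁻¹⁻¹ = φ s
      rw [inv_inv]
      ring
    show f s = ψ.symm (ψ (f (φ.symm (G (P (H s))))))
    rw [ψ.left_inv hA'.2.2, hGP, φ.left_inv hs1]

/-- A homeomorphism of a surface which maps `C¹` curves to `C¹` curves is differentiable almost
everywhere. -/
theorem volume_nonDiff {f : S ≃ₜ S} (hf : ∀ Γ : Set S, IsC1Curve Γ → IsC1Curve (f '' Γ))
    {φ : OpenPartialHomeomorph S ℂ} (hφ : φ ∈ IsManifold.maximalAtlas 𝓘(ℝ, ℂ) ∞ S) :
    volume (φ '' (nonDiff f ∩ φ.source)) = 0 := by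
  refine measure_null_of_locally_null _ ?_
  rintro _ ⟨x, ⟨-, hx⟩, rfl⟩
  obtain ⟨W, hW, hnull⟩ := local_null hf hφ (φ.map_source hx)
  refine ⟨W ∩ φ '' (nonDiff f ∩ φ.source), inter_mem (mem_nhdsWithin_of_mem_nhds hW)
    self_mem_nhdsWithin, measure_mono_null ?_ hnull⟩
  rintro _ ⟨h1, y, ⟨h2, h3⟩, rfl⟩
  refine ⟨h1, ?_⟩
  rw [mem_ofPred_eq, φ.left_inv h3]
  exact h2

end Pool.Agent.Helper61A
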