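import Mathlib

/-!
# A theorem of Stepanov in the plane

A map from the plane to a finite-dimensional space is differentiable at almost every point `p` at
which `‖F q - F p‖ = O (dist q p)`.
-/

set_option autoImplicit false

open Set Filter MeasureTheory Topology Metric
open scoped ENNReal NNReal

namespace Pool.Agent.Helper61A

/-- the plane -/
abbrev E2 : Type := ℝ × ℝ

/-- near a density point `x` of `s` every point `q` is at distance at most `ε dist q x` from `s` -/
theorem exists_near_of_density {s : Set E2} {x : E2} (hx : x ∈ s)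
    (h : Tendsto (fun r => volume (s ∩ closedBall x r) / volume (closedBall x r)) (𝓝[>] 0) (𝓝 1))
    {ε : ℝ} (hε : 0 < ε) : ∀ᶠ q in 𝓝 x, ∃ q' ∈ s, dist q q' ≤ ε * dist q x := by
  set κ : ℝ := (ε / (1 + ε)) ^ 2 with hκ
  have hκ0 : 0 < κ := by positivity
  have h1 : ∀ᶠ r in 𝓝[>] (0 : ℝ), ENNReal.ofReal (1 - κ) <
      volume (s ∩ closedBall x r) / volume (closedBall x r) := by
    refine h.eventually (lt_mem_nhds ?_)
    rw [← ENNReal.ofReal_one]
    exact (ENNReal.ofReal_lt_ofReal_iff one_pos).2 (by linarith)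
  obtain ⟨δ, hδ, h2⟩ := mem_nhdsGT_iff_exists_Ioo_subset.1 h1
  have hδ' : (0 : ℝ) < δ / (1 + ε) := div_pos hδ (by linarith)
  filter_upwards [ball_mem_nhds x hδ'] with q hq
  rcases eq_or_ne q x with rfl | hne
  · exact ⟨q, hx, by simp⟩
  set ρ : ℝ := dist q x with hρ
  have hρ0 : 0 < ρ := dist_pos.2 hne
  set R : ℝ := (1 + ε) * ρ with hR
  have hR0 : 0 < R := by positivity
  have hRδ : R < δ := by
    have : ρ < δ / (1 + ε) := hq
    rw [lt_div_iff₀ (by linarith)] at this
    rw [hR]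
    linarith
  have h3 : ENNReal.ofReal (1 - κ) <
      volume (s ∩ closedBall x R) / volume (closedBall x R) := h2 ⟨hR0, hRδ⟩
  by_contra hcon
  push Not at hcon
  have hsub : s ∩ closedBall x R ⊆ closedBall x R \ ball q (ε * ρ) := by
    rintro y ⟨hy, hyR⟩
    refine ⟨hyR, fun hyq => ?_⟩
    have := hcon y hy
    rw [mem_ball, dist_comm] at hyq
    linarith
  have hsub2 : ball q (ε * ρ) ⊆ closedBall x R := by
    intro y hy
    rw [mem_closedBall]
    have hy' : dist y q < ε * ρ := hy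
    calc dist y x ≤ dist y q + dist q x := dist_triangle _ _ _
      _ ≤ ε * ρ + ρ := by linarith
      _ = R := by rw [hR]; ring
  have hfr : Module.finrank ℝ E2 = 2 := by simp [E2]
  have hc : volume (closedBall x R) = ENNReal.ofReal (R ^ 2) * volume (ball (0 : E2) 1) := by
    rw [Measure.addHaar_closedBall _ _ hR0.le, hfr]
  have hb : volume (ball q (ε * ρ)) = ENNReal.ofReal ((ε * ρ) ^ 2) * volume (ball (0 : E2) 1) := by
    rw [Measure.addHaar_ball _ _ (by positivity), hfr]
  have hμ0 : volume (ball (0 : E2) 1) ≠ 0 := (measure_ball_pos _ _ one_pos).ne'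
  have hμt : volume (ball (0 : E2) 1) ≠ ⊤ := measure_ball_lt_top.ne
  have h4 : volume (s ∩ closedBall x R) ≤ ENNReal.ofReal ((1 - κ) * R ^ 2) *
      volume (ball (0 : E2) 1) := by
    calc volume (s ∩ closedBall x R) ≤ volume (closedBall x R \ ball q (ε * ρ)) :=
          measure_mono hsub
      _ = volume (closedBall x R) - volume (ball q (ε * ρ)) :=
          measure_sdiff hsub2 measurableSet_ball.nullMeasurableSet measure_ball_lt_top.ne
      _ = _ := by
          rw [hc, hb, ← ENNReal.sub_mul (fun _ _ => hμt), ← ENNReal.ofReal_sub _ (by positivity)]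
          congr 2
          rw [hκ, hR]
          field_simp
  rw [ENNReal.lt_div_iff_mul_lt (Or.inl (by rw [hc]; positivity))
    (Or.inl (by rw [hc]; exact ENNReal.mul_ne_top ENNReal.ofReal_ne_top hμt)), hc, ← mul_assoc,
    ← ENNReal.ofReal_mul' (by positivity)] at h3
  exact absurd h4 (not_le.2 h3)

theorem differentiableAt_of_within {V : Type*} [NormedAddCommGroup V] [NormedSpace ℝ V]
    {F : E2 → V} {s : Set E2} {p : E2} (hp : p ∈ s) {L δ : ℝ} (hL : 0 ≤ L) (hδ : 0 < δ)
    (hs : ∀ p' ∈ s, ∀ q, dist q p' < δ → ‖F q - F p'‖ ≤ L * dist q p')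
    (hd : DifferentiableWithinAt ℝ F s p)
    (h : Tendsto (fun r => volume (s ∩ closedBall p r) / volume (closedBall p r)) (𝓝[>] 0)
      (𝓝 1)) : DifferentiableAt ℝ F p := by
  obtain ⟨A, hA⟩ := hd
  refine ⟨A, ?_⟩
  rw [hasFDerivAt_iff_isLittleO, Asymptotics.isLittleO_iff]
  intro c hc
  have hA' := (hasFDerivWithinAt_iff_isLittleO.1 hA)
  rw [Asymptotics.isLittleO_iff] at hA'
  have h1 := hA' (show (0 : ℝ) < c / 4 by positivity)
  rw [eventually_nhdsWithin_iff, Metric.eventually_nhds_iff] at h1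
  obtain ⟨η, hη, h1⟩ := h1
  set ε : ℝ := min 1 (c / (2 * (L + ‖A‖ + 1))) with hε
  have hε0 : 0 < ε := lt_min one_pos (by positivity)
  have hε1 : ε ≤ 1 := min_le_left _ _
  have hεc : (L + ‖A‖) * ε ≤ c / 2 := by
    have h2 : ε ≤ c / (2 * (L + ‖A‖ + 1)) := min_le_right _ _
    rw [le_div_iff₀ (by positivity)] at h2
    nlinarith [norm_nonneg A]
  have hmin : 0 < min (η / 2) (δ / 2) := lt_min (by positivity) (by positivity)
  filter_upwards [exists_near_of_density hp h hε0, ball_mem_nhds p hmin] with q ⟨q', hq', hqq⟩ hq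
  have hd1 : dist q p < η / 2 := lt_of_lt_of_le hq (min_le_left _ _)
  have hd2 : dist q p < δ / 2 := lt_of_lt_of_le hq (min_le_right _ _)
  have hd0 : 0 ≤ dist q p := dist_nonneg
  have hqq1 : dist q q' ≤ dist q p := hqq.trans (by nlinarith)
  have hq'p : dist q' p ≤ 2 * dist q p := by
    have := dist_triangle_left q' p q
    rw [dist_comm] at hqq1
    linarith [dist_comm q' q]
  have e1 : ‖F q - F q'‖ ≤ L * (ε * dist q p) :=
    (hs q' hq' q (by linarith)).trans (mul_le_mul_of_nonneg_left hqq hL)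
  have e2 : ‖F q' - F p - A (q' - p)‖ ≤ c / 4 * ‖q' - p‖ := h1 (by linarith) hq'
  rw [← dist_eq_norm q' p] at e2
  have e3 : ‖A (q' - q)‖ ≤ ‖A‖ * (ε * dist q p) := by
    refine (A.le_opNorm _).trans (mul_le_mul_of_nonneg_left ?_ (norm_nonneg _))
    rw [← dist_eq_norm, dist_comm]
    exact hqq
  have e4 : F q - F p - A (q - p) = (F q - F q') + (F q' - F p - A (q' - p)) + A (q' - q) := by
    have e5 : A (q' - q) = A (q' - p) - A (q - p) := by
      rw [← map_sub]
      congr 1
      abel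
    rw [e5]
    abel
  rw [e4, ← dist_eq_norm q p]
  calc ‖(F q - F q') + (F q' - F p - A (q' - p)) + A (q' - q)‖
      ≤ ‖(F q - F q')‖ + ‖(F q' - F p - A (q' - p))‖ + ‖A (q' - q)‖ := norm_add₃_le
    _ ≤ L * (ε * dist q p) + c / 4 * (2 * dist q p) + ‖A‖ * (ε * dist q p) := by
        have : c / 4 * dist q' p ≤ c / 4 * (2 * dist q p) :=
          mul_le_mul_of_nonneg_left hq'p (by positivity)
        linarith
    _ = ((L + ‖A‖) * ε + c / 2) * dist q p := by ring
    _ ≤ c * dist q p := by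
        refine mul_le_mul_of_nonneg_right ?_ hd0
        linarith

/-- **Stepanov's theorem** in the plane. -/
theorem stepanov {V : Type*} [NormedAddCommGroup V] [NormedSpace ℝ V] [FiniteDimensional ℝ V]
    (F : E2 → V) :
    ∀ᵐ p : E2, (∃ C : ℝ, ∀ᶠ q in 𝓝 p, ‖F q - F p‖ ≤ C * dist q p) → DifferentiableAt ℝ F p := by
  let s : ℕ → ℕ → Set E2 := fun n i => {p | dist p (TopologicalSpace.denseSeq E2 i) < 1 / (4 * ((n : ℝ) + 1)) ∧
    ∀ q, dist q p < 1 / ((n : ℝ) + 1) → ‖F q - F p‖ ≤ ((n : ℝ) + 1) * dist q p}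
  have hlip : ∀ (n i : ℕ), LipschitzOnWith ((n : ℝ≥0) + 1) F (s n i) := by
    intro n i
    refine LipschitzOnWith.of_dist_le_mul fun p hp q hq => ?_
    have h1 : dist p q < 1 / ((n : ℝ) + 1) := by
      have h2 : dist p q ≤ dist p (TopologicalSpace.denseSeq E2 i) + dist q (TopologicalSpace.denseSeq E2 i) :=
        dist_triangle_right _ _ _
      have h3 := hp.1
      have h4 := hq.1
      have h5 : 1 / (4 * ((n : ℝ) + 1)) + 1 / (4 * ((n : ℝ) + 1)) ≤ 1 / ((n : ℝ) + 1) := by
        rw [← add_div, div_le_div_iff₀ (by positivity) (by positivity)]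
        have : (0 : ℝ) ≤ n := Nat.cast_nonneg n
        nlinarith
      linarith
    rw [dist_eq_norm (F p)]
    have := hq.2 p h1
    simpa using this
  have h1 : ∀ n i, ∀ᵐ p : E2, p ∈ s n i → DifferentiableWithinAt ℝ F (s n i) p := fun n i =>
    (hlip n i).ae_differentiableWithinAt_of_mem
  have h2 : ∀ n i, ∀ᵐ p : E2, p ∈ s n i → Tendsto (fun r => volume (s n i ∩ closedBall p r) /
      volume (closedBall p r)) (𝓝[>] 0) (𝓝 1) := fun n i =>
    ae_imp_of_ae_restrict (Besicovitch.ae_tendsto_measure_inter_div volume (s n i))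
  have h1' := ae_all_iff.2 fun n => ae_all_iff.2 (h1 n)
  have h2' := ae_all_iff.2 fun n => ae_all_iff.2 (h2 n)
  filter_upwards [h1', h2'] with p hp1 hp2 ⟨C, hC⟩
  obtain ⟨η, hη, hC⟩ := Metric.eventually_nhds_iff.1 hC
  obtain ⟨n, hn⟩ := exists_nat_gt (max C (1 / η))
  have hnC : C < n := (le_max_left _ _).trans_lt hn
  have hnη : 1 / η < n := (le_max_right _ _).trans_lt hn
  have hn0 : (0 : ℝ) < (n : ℝ) + 1 := by positivity
  have hlt : 1 / ((n : ℝ) + 1) < η := by
    rw [div_lt_iff₀ hη] at hnη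
    rw [div_lt_iff₀ hn0]
    nlinarith
  obtain ⟨i, hi⟩ : ∃ i, dist p (TopologicalSpace.denseSeq E2 i) < 1 / (4 * ((n : ℝ) + 1)) := by
    have := (TopologicalSpace.denseRange_denseSeq E2).exists_dist_lt p
      (show (0 : ℝ) < 1 / (4 * ((n : ℝ) + 1)) by positivity)
    exact this
  have hps : p ∈ s n i := by
    refine ⟨hi, fun q hq => (hC (hq.trans hlt)).trans ?_⟩
    exact mul_le_mul_of_nonneg_right (by linarith) dist_nonneg
  exact differentiableAt_of_within hps (L := (n : ℝ) + 1) hn0.le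
    (show (0 : ℝ) < 1 / ((n : ℝ) + 1) by positivity) (fun p' hp' q hq => hp'.2 q hq)
    (hp1 n i hps) (hp2 n i hps)

end Pool.Agent.Helper61A
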