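import Pool.Agent.Helper61A.Lin
import Pool.Agent.Helper61A.Curve

/-!
# Homeomorphisms of surfaces mapping `C¹` curves to `C¹` curves are differentiable a.e.
-/

set_option autoImplicit false

open Set Filter MeasureTheory Topology Metric
open scoped Manifold ContDiff

namespace Pool.Agent.Helper61A

open R789.C1

variable {S : Type*} [TopologicalSpace S] [ChartedSpace ℂ S]

/-- round circles in a chart are `C¹` curves -/
theorem isC1Curve_circle [IsManifold 𝓘(ℝ, ℂ) ∞ S] {φ : OpenPartialHomeomorph S ℂ}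
    (hφ : φ ∈ IsManifold.maximalAtlas 𝓘(ℝ, ℂ) ∞ S) {m : ℂ} {R : ℝ} (hR : 0 < R)
    (hs : sphere m R ⊆ φ.target) : IsC1Curve (φ.symm '' sphere m R) := by
  let g : ℝ → ℂ := fun t => m + R * Complex.exp (2 * Real.pi * t * Complex.I)
  have hgs : ∀ t, g t ∈ sphere m R := by
    intro t
    rw [mem_sphere, dist_eq_norm]
    simp only [g, add_sub_cancel_left, norm_mul, Complex.norm_real, Real.norm_eq_abs,
      abs_of_pos hR]
    have : (2 * Real.pi * t * Complex.I : ℂ) = ((2 * Real.pi * t : ℝ) : ℂ) * Complex.I := by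
      push_cast; ring
    rw [this, Complex.norm_exp_ofReal_mul_I, mul_one]
  have hg : ContDiff ℝ 1 g := by
    have h0 : ContDiff ℝ 1 (fun t : ℝ => (t : ℂ)) := Complex.ofRealCLM.contDiff
    exact contDiff_const.add (contDiff_const.mul
      (((contDiff_const.mul h0).mul contDiff_const).cexp))
  have hd : ∀ t : ℝ, HasDerivAt g (R * (Complex.exp (2 * Real.pi * t * Complex.I) *
      (2 * Real.pi * Complex.I))) t := by
    intro t
    have h1 : HasDerivAt (fun t : ℝ => (2 * Real.pi * t * Complex.I : ℂ))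
        (2 * Real.pi * Complex.I) t := by
      have h2 : HasDerivAt (fun t : ℝ => (t : ℂ)) 1 t := Complex.ofRealCLM.hasDerivAt
      have h3 := (h2.const_mul (2 * Real.pi : ℂ)).mul_const Complex.I
      simpa using h3
    exact (h1.cexp.const_mul (R : ℂ)).const_add m
  have hφs : ContMDiffOn 𝓘(ℝ, ℂ) 𝓘(ℝ, ℂ) ∞ φ.symm φ.target :=
    contMDiffOn_symm_of_mem_maximalAtlas hφ
  have hcm : ContMDiff 𝓘(ℝ, ℝ) 𝓘(ℝ, ℂ) 1 (fun t => φ.symm (g t)) := by
    have h1 : ContMDiffOn 𝓘(ℝ, ℂ) 𝓘(ℝ, ℂ) 1 φ.symm φ.target := hφs.of_le (by simp)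
    exact h1.comp_contMDiff hg.contMDiff fun t => hs (hgs t)
  refine ⟨fun t => φ.symm (g t), hcm, ?_, ?_, ?_, ?_⟩
  · intro t h0
    have hφd : MDifferentiableAt 𝓘(ℝ, ℂ) 𝓘(ℝ, ℂ) φ (φ.symm (g t)) :=
      (contMDiffAt_of_mem_maximalAtlas hφ (φ.map_target (hs (hgs t)))).mdifferentiableAt (by simp)
    have h1 := mfderiv_comp t hφd (hcm.mdifferentiable one_ne_zero t)
    rw [h0] at h1
    have h2 : (φ ∘ fun t => φ.symm (g t)) = g := by
      funext t
      exact φ.right_inv (hs (hgs t))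
    rw [h2, mfderiv_eq_fderiv] at h1
    have h3 : fderiv ℝ g t = 0 := by
      rw [h1]
      exact ContinuousLinearMap.comp_zero _
    have h4 : deriv g t = 0 := by
      show fderiv ℝ g t 1 = 0
      rw [h3]
      rfl
    rw [(hd t).deriv] at h4
    have h5 : (R : ℂ) ≠ 0 := by exact_mod_cast hR.ne'
    have h6 : (2 * Real.pi * Complex.I : ℂ) ≠ 0 := by
      simp [Real.pi_ne_zero]
    exact mul_ne_zero h5 (mul_ne_zero (Complex.exp_ne_zero _) h6) h4
  · intro t
    show φ.symm (m + R * Complex.exp (2 * Real.pi * ((t + 1 : ℝ) : ℂ) * Complex.I)) =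
      φ.symm (m + R * Complex.exp (2 * Real.pi * t * Complex.I))
    have : (2 * Real.pi * ((t + 1 : ℝ) : ℂ) * Complex.I : ℂ) =
        2 * Real.pi * t * Complex.I + 2 * Real.pi * Complex.I := by
      push_cast; ring
    rw [this, Complex.exp_add, Complex.exp_two_pi_mul_I, mul_one]
  · intro s hs' t ht h
    have h1 : g s = g t := φ.symm.injOn (hs (hgs s)) (hs (hgs t)) h
    have h2 : Complex.exp (2 * Real.pi * s * Complex.I) =
        Complex.exp (2 * Real.pi * t * Complex.I) := by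
      have h3 : (R : ℂ) ≠ 0 := by exact_mod_cast hR.ne'
      exact mul_left_cancel₀ h3 (add_left_cancel h1)
    rw [Complex.exp_eq_exp_iff_exists_int] at h2
    obtain ⟨n, hn⟩ := h2
    have h4 : (s : ℂ) = t + n := by
      have h5 : (2 * Real.pi * Complex.I : ℂ) ≠ 0 := by simp [Real.pi_ne_zero]
      apply mul_right_cancel₀ h5
      calc (s : ℂ) * (2 * Real.pi * Complex.I) = 2 * Real.pi * s * Complex.I := by ring
        _ = _ := hn
        _ = _ := by ring
    have h5 : s = t + n := by exact_mod_cast h4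
    have h6 : (-1 : ℝ) < n := by linarith [hs'.1, ht.2]
    have h7 : (n : ℝ) < 1 := by linarith [hs'.2, ht.1]
    have h8 : n = 0 := by
      have h9 : -1 < n := by exact_mod_cast h6
      have h10 : n < 1 := by exact_mod_cast h7
      omega
    rw [h5, h8]
    simp
  · ext x
    constructor
    · rintro ⟨z, hz, rfl⟩
      rw [mem_sphere, dist_eq_norm] at hz
      obtain ⟨α, hα⟩ : ∃ α : ℝ, z - m = ‖z - m‖ * Complex.exp (α * Complex.I) :=
        ⟨Complex.arg (z - m), (Complex.norm_mul_exp_arg_mul_I _).symm⟩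
      refine ⟨α / (2 * Real.pi), ?_⟩
      show φ.symm (m + R * Complex.exp (2 * Real.pi * ((α / (2 * Real.pi) : ℝ) : ℂ) *
        Complex.I)) = φ.symm z
      congr 1
      have h1 : (2 * Real.pi * ((α / (2 * Real.pi) : ℝ) : ℂ) * Complex.I : ℂ) =
          α * Complex.I := by
        push_cast
        have : (Real.pi : ℂ) ≠ 0 := by exact_mod_cast Real.pi_ne_zero
        field_simp
      rw [h1, ← hz, ← hα]
      ring
    · rintro ⟨t, rfl⟩
      exact ⟨g t, hgs t, rfl⟩

/-- the plane as `ℂ` -/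
noncomputable abbrev P : E2 ≃L[ℝ] ℂ := Complex.equivRealProdCLM.symm

theorem P_apply (p : E2) : P p = p.1 + p.2 * Complex.I :=
  Complex.equivRealProdCLM_symm_apply p

/-- horizontal lines are mapped to circles by the inversion -/
theorem horizontal_circle (x : ℝ) {y : ℝ} (hy : y ≠ 0) :
    ‖((x : ℂ) + y * Complex.I)⁻¹ + Complex.I / (2 * y)‖ = 1 / (2 * |y|) := by
  have hy' : (y : ℂ) ≠ 0 := by exact_mod_cast hy
  have hw : ((x : ℂ) + y * Complex.I) ≠ 0 := by
    intro h
    have := congrArg Complex.im h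
    simp at this
    exact hy this
  have h1 : ((x : ℂ) + y * Complex.I)⁻¹ + Complex.I / (2 * y) =
      Complex.I * ((x : ℂ) - y * Complex.I) / (2 * y * ((x : ℂ) + y * Complex.I)) := by
    field_simp
    ring_nf
    simp only [Complex.I_sq]
    ring
  have h2 : ‖((x : ℂ) - y * Complex.I)‖ = ‖((x : ℂ) + y * Complex.I)‖ := by
    rw [← Complex.norm_conj ((x : ℂ) + y * Complex.I)]
    congr 1
    simp
    ring
  rw [h1, norm_div, norm_mul, norm_mul, h2, Complex.norm_I, one_mul, norm_mul, Complex.norm_real,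
    Real.norm_eq_abs]
  have h3 : ‖((x : ℂ) + y * Complex.I)‖ ≠ 0 := norm_ne_zero_iff.2 hw
  have h4 : |y| ≠ 0 := abs_ne_zero.2 hy
  simp only [Complex.norm_ofNat]
  field_simp

theorem vertical_circle {x : ℝ} (y : ℝ) (hx : x ≠ 0) :
    ‖((x : ℂ) + y * Complex.I)⁻¹ - 1 / (2 * x)‖ = 1 / (2 * |x|) := by
  have hx' : (x : ℂ) ≠ 0 := by exact_mod_cast hx
  have hw : ((x : ℂ) + y * Complex.I) ≠ 0 := by
    intro h
    have := congrArg Complex.re h
    simp at this
    exact hx this
  have h1 : ((x : ℂ) + y * Complex.I)⁻¹ - 1 / (2 * x) =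
      ((x : ℂ) - y * Complex.I) / (2 * x * ((x : ℂ) + y * Complex.I)) := by
    field_simp
    ring
  have h2 : ‖((x : ℂ) - y * Complex.I)‖ = ‖((x : ℂ) + y * Complex.I)‖ := by
    rw [← Complex.norm_conj ((x : ℂ) + y * Complex.I)]
    congr 1
    simp
    ring
  rw [h1, norm_div, norm_mul, norm_mul, h2, Complex.norm_real, Real.norm_eq_abs]
  have h3 : ‖((x : ℂ) + y * Complex.I)‖ ≠ 0 := norm_ne_zero_iff.2 hw
  have h4 : |x| ≠ 0 := abs_ne_zero.2 hx
  simp only [Complex.norm_ofNat]
  field_simp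

end Pool.Agent.Helper61A
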